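import Pool.Agent.LibMA42.F4a

/-!
MP_3a91e3_lc, forcing side, task F4b: homogeneous delta systems.
-/

namespace Pool.Agent.LibMA42

/-- HINT: `delta_system`, then the function which maps `a` to the restriction of `t a` to the finite
root `R` has countably many values (`Countable (R → K)` for finite `R`), so it is constant on an
uncountable subset. `R` is finite if there are two different `a, b ∈ S'`. -/
theorem delta_homog {J X K : Type} [Countable K] (S : Set J) (hS : ¬ S.Countable)
    (E : J → Set X) (hE : ∀ j, (E j).Finite) (t : J → X → X → K) :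
    ∃ S' ⊆ S, ¬ S'.Countable ∧
      (∀ a ∈ S', ∀ b ∈ S', a ≠ b → ∀ x, x ∈ E a → x ∈ E b → ∀ g ∈ S', x ∈ E g) ∧
      ∀ a ∈ S', ∀ b ∈ S', ∀ x y, x ∈ E a → x ∈ E b → y ∈ E a → y ∈ E b → t a x y = t b x y := by
  obtain ⟨S', hS', hunc, R, hR⟩ := delta_system S hS E hE
  -- two different members, the root is finite
  have hnt : S'.Nontrivial := by
    by_contra h
    exact hunc ((Set.not_nontrivial_iff.mp h).finite.countable)
  obtain ⟨a0, ha0, b0, hb0, hab0⟩ := hnt
  have hRfin : R.Finite := by
    rw [← hR a0 ha0 b0 hb0 hab0]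
    exact (hE a0).subset Set.inter_subset_left
  have : Finite R := hRfin.to_subtype
  let φ : J → (R → R → K) := fun a x y => t a x y
  have hex : ∃ c : R → R → K, ¬ {a ∈ S' | φ a = c}.Countable := by
    by_contra h
    push Not at h
    apply hunc
    have hU : S' = ⋃ c : R → R → K, {a ∈ S' | φ a = c} := by
      ext a
      simp
    rw [hU]
    exact Set.countable_iUnion h
  obtain ⟨c, hc⟩ := hex
  refine ⟨{a ∈ S' | φ a = c}, fun a ha => hS' ha.1, hc, ?_, ?_⟩
  · intro a ha b hb hab x hxa hxb g hg
    have hxR : x ∈ R := by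
      rw [← hR a ha.1 b hb.1 hab]
      exact ⟨hxa, hxb⟩
    by_cases hga : g = a
    · rw [hga]; exact hxa
    · rw [← hR g hg.1 a ha.1 hga] at hxR
      exact hxR.1
  · intro a ha b hb x y hxa hxb hya hyb
    by_cases hab : a = b
    · rw [hab]
    · have hxR : x ∈ R := by
        rw [← hR a ha.1 b hb.1 hab]
        exact ⟨hxa, hxb⟩
      have hyR : y ∈ R := by
        rw [← hR a ha.1 b hb.1 hab]
        exact ⟨hya, hyb⟩
      have h := congrFun (congrFun (ha.2.trans hb.2.symm) ⟨x, hxR⟩) ⟨y, hyR⟩
      exact h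

end Pool.Agent.LibMA42
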