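import Pool.Agent.LibMA42.Defs

/-!
MP_3a91e3_lc, task C1a: Boolean-valued cardinality bounds.
-/

namespace Pool.Agent.LibMA42

variable {B : Type} [CompleteBooleanAlgebra B] {f : ℕ → ℕ}

/-- Characterisation of `cap` by the elements below. HINT: `(⨅ a ∈ A, z a)ᶜ`: if `c ≤ cap` and `b ≤ c`,
`b ≤ z a` for all `a ∈ A` and `f n < K * A.card`, then `b ≤ (⨅ a ∈ A, z a)ᶜ` and `b ≤ ⨅ a ∈ A, z a`, so
`b = ⊥`. Conversely apply the right hand side to `b = c ⊓ ⨅ a ∈ A, z a` (`le_compl_iff_disjoint_right`). -/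
theorem le_cap_iff {K n : ℕ} {z : ℕ → B} {c : B} : c ≤ cap f K n z ↔
    ∀ b, b ≤ c → b ≠ ⊥ → ∀ A : Finset ℕ, A ⊆ Finset.range (f n) → (∀ a ∈ A, b ≤ z a) →
      K * A.card ≤ f n := by
  constructor
  · intro hc b hb hb0 A hA hz
    by_contra hlt
    push Not at hlt
    have h1 : b ≤ (⨅ a ∈ A, z a)ᶜ := by
      refine (hb.trans hc).trans ?_
      unfold cap
      exact iInf₂_le A ⟨hA, hlt⟩
    have h2 : b ≤ ⨅ a ∈ A, z a := le_iInf₂ hz
    apply hb0
    have h3 : b ≤ (⨅ a ∈ A, z a)ᶜ ⊓ ⨅ a ∈ A, z a := le_inf h1 h2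
    rw [compl_inf_eq_bot] at h3
    exact le_bot_iff.1 h3
  · intro h
    unfold cap
    refine le_iInf₂ fun A hA => ?_
    rw [le_compl_iff_disjoint_right, disjoint_iff]
    by_contra hne
    have h4 := h (c ⊓ ⨅ a ∈ A, z a) inf_le_left hne A hA.1
      (fun a ha => inf_le_right.trans (iInf₂_le a ha))
    exact absurd h4 (not_le.2 hA.2)

theorem cap_anti {K n : ℕ} {x y : ℕ → B} (h : ∀ a, x a ≤ y a) : cap f K n y ≤ cap f K n x := by
  rw [le_cap_iff]
  intro b hb hb0 A hA hz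
  exact le_cap_iff.1 hb b le_rfl hb0 A hA (fun a ha => (hz a ha).trans (h a))

theorem cap_mono_K {K K' n : ℕ} (h : K ≤ K') (x : ℕ → B) : cap f K' n x ≤ cap f K n x := by
  rw [le_cap_iff]
  intro b hb hb0 A hA hz
  exact (Nat.mul_le_mul_right _ h).trans (le_cap_iff.1 hb b le_rfl hb0 A hA hz)

/-- `cap` respects inclusion. HINT: `le_cap_iff`. -/
theorem cap_congr {K n : ℕ} (x y : ℕ → B) : (⨅ a, (x a ⇨ y a)) ⊓ cap f K n y ≤ cap f K n x := by
  rw [le_cap_iff]
  intro b hb hb0 A hA hz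
  refine le_cap_iff.1 (hb.trans inf_le_right) b le_rfl hb0 A hA (fun a ha => ?_)
  have h1 : b ≤ x a ⇨ y a := (hb.trans inf_le_left).trans (iInf_le _ a)
  have h2 : b ≤ (x a ⇨ y a) ⊓ x a := le_inf h1 (hz a ha)
  exact h2.trans (by rw [himp_inf_self]; exact inf_le_left)

theorem cap_bot {K n : ℕ} : cap f K n (fun _ => (⊥ : B)) = ⊤ := by
  rw [eq_top_iff, le_cap_iff]
  intro b _ hb0 A _ hz
  rcases A.eq_empty_or_nonempty with hA | ⟨a, ha⟩
  · simp [hA]
  · exact absurd (le_bot_iff.1 (hz a ha)) hb0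

/-- Below a nonzero element, finitely many values can be decided. HINT: induction on `A`. -/
theorem exists_decide (A : Finset ℕ) (x : ℕ → B) (b : B) (hb : b ≠ ⊥) :
    ∃ b', b' ≤ b ∧ b' ≠ ⊥ ∧ ∀ a ∈ A, b' ≤ x a ∨ b' ⊓ x a = ⊥ := by
  classical
  induction A using Finset.induction_on with
  | empty => exact ⟨b, le_rfl, hb, by simp⟩
  | insert a A _ ih =>
    obtain ⟨b₁, h1, h2, h3⟩ := ih
    by_cases h : b₁ ⊓ x a = ⊥
    · refine ⟨b₁, h1, h2, fun c hc => ?_⟩
      rcases Finset.mem_insert.1 hc with rfl | hc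
      · exact Or.inr h
      · exact h3 c hc
    · refine ⟨b₁ ⊓ x a, inf_le_left.trans h1, h, fun c hc => ?_⟩
      rcases Finset.mem_insert.1 hc with rfl | hc
      · exact Or.inl inf_le_right
      · rcases h3 c hc with h4 | h4
        · exact Or.inl (inf_le_left.trans h4)
        · exact Or.inr (le_bot_iff.1 ((inf_le_inf_right _ inf_le_left).trans h4.le))

/-- HINT: `le_cap_iff`; let `b ≤ c`, `b ≤ x a ⊔ y a` for `a ∈ A`. By `exists_decide` we may assume that `b`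
decides all the `x a`, `a ∈ A`; if `b ⊓ x a = ⊥` then `b ≤ y a`. So `A` is the union of `A₁` (where
`b ≤ x a`) and `A₂` (where `b ≤ y a`), and `2 * K * A₁.card ≤ f n`, `2 * K * A₂.card ≤ f n`. -/
theorem cap_sup {K n : ℕ} (x y : ℕ → B) :
    cap f (2 * K) n x ⊓ cap f (2 * K) n y ≤ cap f K n (fun a => x a ⊔ y a) := by
  classical
  rw [le_cap_iff]
  intro b hb hb0 A hA hz
  obtain ⟨b', h1, h2, h3⟩ := exists_decide A x b hb0
  have hx := le_cap_iff.1 ((h1.trans hb).trans inf_le_left) b' le_rfl h2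
    (A.filter fun a => b' ≤ x a) ((Finset.filter_subset _ _).trans hA)
    (fun a ha => (Finset.mem_filter.1 ha).2)
  have hy := le_cap_iff.1 ((h1.trans hb).trans inf_le_right) b' le_rfl h2
    (A.filter fun a => ¬ b' ≤ x a) ((Finset.filter_subset _ _).trans hA) (fun a ha => by
      obtain ⟨ha1, ha2⟩ := Finset.mem_filter.1 ha
      rcases h3 a ha1 with h4 | h4
      · exact absurd h4 ha2
      · have h5 : b' ≤ b' ⊓ (x a ⊔ y a) := le_inf le_rfl (h1.trans (hz a ha1))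
        rw [inf_sup_left, h4, bot_sup_eq] at h5
        exact h5.trans inf_le_right)
  have hc := Finset.card_filter_add_card_filter_not (s := A) (fun a => b' ≤ x a)
  have e : 2 * (K * A.card) = 2 * K * (A.filter fun a => b' ≤ x a).card
      + 2 * K * (A.filter fun a => ¬ b' ≤ x a).card := by
    rw [← hc]; ring
  omega

end Pool.Agent.LibMA42
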