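import Pool.Agent.LibMA42.C1a

/-!
MP_3a91e3_lc, task C1b: Boolean-valued null slaloms, basic lemmas.
-/

namespace Pool.Agent.LibMA42

variable {B : Type} [CompleteBooleanAlgebra B] {f : ℕ → ℕ}

theorem C1b_top {φ : ℕ → ℕ → B} (h : nul f φ = ⊤) (K : ℕ) :
    (⨆ m : ℕ, ⨅ n : ℕ, ⨅ (_ : m ≤ n), cap f K n (φ n)) = ⊤ := by
  rw [eq_top_iff, ← h]
  exact iInf_le _ K

/-- HINT: it is enough to show `nul f φ = ⊤` for each `K` separately; the suprema over `m` are directed: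
`(⨆ m, u m) ⊓ (⨆ m, v m) = ⨆ m, ⨆ m', u m ⊓ v m'` (`iSup_inf_iSup`) and `u m ⊓ v m' ≤ w (max m m')`. -/
theorem NS.jn {φ ψ : ℕ → ℕ → B} (h : NS f φ) (h' : NS f ψ) : NS f (jn φ ψ) := by
  refine ⟨fun n a ha => ?_, ?_⟩
  · show φ n a ⊔ ψ n a = ⊥
    rw [h.sup n a ha, h'.sup n a ha, sup_bot_eq]
  · rw [eq_top_iff]
    refine le_iInf fun K => ?_
    calc (⊤ : B) = (⨆ m : ℕ, ⨅ n : ℕ, ⨅ (_ : m ≤ n), cap f (2 * K) n (φ n)) ⊓
          (⨆ m : ℕ, ⨅ n : ℕ, ⨅ (_ : m ≤ n), cap f (2 * K) n (ψ n)) := by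
          rw [C1b_top h.nul, C1b_top h'.nul, inf_top_eq]
      _ ≤ _ := by
          rw [iSup_inf_iSup]
          refine iSup_le fun p => le_iSup_of_le (max p.1 p.2) (le_iInf₂ fun n hn => ?_)
          exact le_trans (inf_le_inf (iInf₂_le n (le_trans (le_max_left _ _) hn))
            (iInf₂_le n (le_trans (le_max_right _ _) hn))) (cap_sup (φ n) (ψ n))

theorem NS.bot : NS f (fun _ _ => (⊥ : B)) := by
  refine ⟨fun _ _ _ => rfl, ?_⟩
  rw [eq_top_iff]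
  refine le_iInf fun K => le_iSup_of_le 0 (le_iInf₂ fun n _ => ?_)
  exact (cap_bot (B := B) (f := f) (K := K) (n := n)).ge

/-- A slalom which is null below `c`, and empty outside of `c`. -/
theorem NS.inf {φ : ℕ → ℕ → B} {c : B} (h : c ≤ LibMA42.nul f φ) (hs : ∀ n a, f n ≤ a → φ n a = ⊥) :
    NS f (fun n a => c ⊓ φ n a) := by
  refine ⟨fun n a ha => by rw [hs n a ha, inf_bot_eq], ?_⟩
  rw [eq_top_iff]
  refine le_iInf fun K => ?_
  rw [← sup_compl_eq_top (x := c)]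
  refine sup_le ?_ ?_
  · refine le_trans (le_trans h (iInf_le _ K)) (iSup_mono fun m => iInf₂_mono fun n _ => ?_)
    exact cap_anti fun a => inf_le_right
  · refine le_iSup_of_le 0 (le_iInf₂ fun n _ => ?_)
    refine le_trans ?_ (cap_congr (fun a => c ⊓ φ n a) (fun _ => (⊥ : B)))
    rw [cap_bot, inf_top_eq]
    refine le_iInf fun a => ?_
    rw [himp_bot]
    exact compl_le_compl inf_le_left

theorem ale_of_le {φ ψ : ℕ → ℕ → B} (h : ∀ n a, φ n a ≤ ψ n a) : ale φ ψ = ⊤ := by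
  rw [eq_top_iff]
  refine le_iSup_of_le 0 (le_iInf₂ fun n _ => le_iInf fun a => ?_)
  rw [le_himp_iff]
  exact le_trans inf_le_right (h n a)

theorem ale_refl (φ : ℕ → ℕ → B) : ale φ φ = ⊤ := ale_of_le fun _ _ => le_rfl

theorem ale_trans (φ ψ χ : ℕ → ℕ → B) : ale φ ψ ⊓ ale ψ χ ≤ ale φ χ := by
  unfold ale
  rw [iSup_inf_iSup]
  refine iSup_le fun p => le_iSup_of_le (max p.1 p.2) (le_iInf₂ fun n hn => le_iInf fun a => ?_)
  exact le_trans (inf_le_inf (le_trans (iInf₂_le n (le_trans (le_max_left _ _) hn)) (iInf_le _ a))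
    (le_trans (iInf₂_le n (le_trans (le_max_right _ _) hn)) (iInf_le _ a)))
    (himp_triangle _ _ _)

/-- If `φ = ψ` below `c` then `φ ⊆* ψ` below `c`. -/
theorem le_ale {φ ψ : ℕ → ℕ → B} {c : B} (h : ∀ n a, c ⊓ φ n a ≤ ψ n a) : c ≤ ale φ ψ := by
  refine le_iSup_of_le 0 (le_iInf₂ fun n _ => le_iInf fun a => ?_)
  rw [le_himp_iff]
  exact h n a

end Pool.Agent.LibMA42
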