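import Pool.Agent.LibMA42.C1

/-!
MP_3a91e3_lc, task C2: each countable family of null slaloms has an upper bound.
-/

namespace Pool.Agent.LibMA42

variable {B : Type} [CompleteBooleanAlgebra B] {f : ℕ → ℕ}

/-- The union of the first slaloms. -/
def un (φ : ℕ → ℕ → ℕ → B) (N n a : ℕ) : B := ⨆ i : Fin (N + 1), φ i n a

theorem C2_le_un (φ : ℕ → ℕ → ℕ → B) {N i : ℕ} (h : i ≤ N) (n a : ℕ) : φ i n a ≤ un φ N n a :=
  le_iSup_of_le (⟨i, Nat.lt_succ_of_le h⟩ : Fin (N + 1)) le_rfl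

theorem C2_un_le (φ : ℕ → ℕ → ℕ → B) {N n a : ℕ} {c : B} (h : ∀ i, i ≤ N → φ i n a ≤ c) :
    un φ N n a ≤ c := iSup_le fun i => h i (Nat.le_of_lt_succ i.2)

/-- HINT: induction on `N`, `NS.jn`. -/
theorem un_NS {φ : ℕ → ℕ → ℕ → B} (h : ∀ i, NS f (φ i)) (N : ℕ) : NS f (un φ N) := by
  induction N with
  | zero =>
    have h1 : un φ 0 = φ 0 := by
      funext n a
      refine le_antisymm (C2_un_le φ fun i hi => ?_) (C2_le_un φ le_rfl n a)
      rw [Nat.le_zero.1 hi]
    rw [h1]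
    exact h 0
  | succ N ih =>
    have h1 : un φ (N + 1) = jn (un φ N) (φ (N + 1)) := by
      funext n a
      refine le_antisymm (C2_un_le φ fun i hi => ?_) (sup_le (C2_un_le φ fun i hi => ?_)
        (C2_le_un φ le_rfl n a))
      · rcases Nat.le_succ_iff.1 hi with h2 | h2
        · exact (C2_le_un φ h2 n a).trans le_sup_left
        · rw [h2]
          exact le_sup_right
      · exact C2_le_un φ (hi.trans (Nat.le_succ N)) n a
    rw [h1]
    exact ih.jn (h (N + 1))

theorem C2_max (P : ℕ → Prop) (K n : ℕ) (hK : P K) (hKn : K ≤ n) :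
    ∃ N, K ≤ N ∧ N ≤ n ∧ P N ∧ ∀ M, N < M → M ≤ n → ¬ P M := by
  classical
  induction n with
  | zero => exact ⟨K, le_rfl, hKn, hK, fun M h h' => absurd h (not_lt.2 (h'.trans (Nat.zero_le K)))⟩
  | succ n ih =>
    by_cases hP : P (n + 1)
    · exact ⟨n + 1, hKn, le_rfl, hP, fun M h h' => absurd h (not_lt.2 h')⟩
    · rcases Nat.le_succ_iff.1 hKn with h | h
      · obtain ⟨N, h1, h2, h3, h4⟩ := ih h
        refine ⟨N, h1, h2.trans (Nat.le_succ n), h3, fun M hM hM' => ?_⟩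
        rcases Nat.le_succ_iff.1 hM' with h5 | h5
        · exact h4 M hM h5
        · rw [h5]
          exact hP
      · rw [h] at hK
        exact absurd hK hP

theorem ctbl_bound {φ : ℕ → ℕ → ℕ → B} (h : ∀ i, NS f (φ i)) :
    ∃ σ, NS f σ ∧ ∀ i, ale (φ i) σ = ⊤ := by
  set D : ℕ → ℕ → B := fun N m => ⨅ n : ℕ, ⨅ (_ : m ≤ n), cap f (N + 1) n (un φ N n) with hD
  have hDtop : ∀ N, ⨆ m, D N m = ⊤ := fun N => C1b_top (un_NS h N).nul (N + 1)
  have hDmono : ∀ N m m', m ≤ m' → D N m ≤ D N m' := fun N m m' hm =>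
    le_iInf₂ fun n hn => iInf₂_le n (hm.trans hn)
  have hDcap : ∀ N n, D N n ≤ cap f (N + 1) n (un φ N n) := fun N n => iInf₂_le n le_rfl
  set σ : ℕ → ℕ → B := fun n a => ⨆ N : ℕ, ⨆ (_ : N ≤ n), D N n ⊓ φ N n a with hσ
  refine ⟨σ, ⟨fun n a ha => ?_, ?_⟩, fun N => ?_⟩
  · rw [eq_bot_iff]
    refine iSup₂_le fun N _ => ?_
    rw [(h N).sup n a ha, inf_bot_eq]
  · rw [eq_top_iff]
    refine le_iInf fun K => ?_
    rw [← hDtop K]
    refine iSup_le fun m => le_iSup_of_le (max m K) (le_iInf₂ fun n hn => ?_)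
    rw [le_cap_iff]
    intro b hb hb0 A hA hbA
    obtain ⟨b', hb'b, hb'0, hdec⟩ := exists_decide (Finset.range (n + 1)) (fun N => D N n) b hb0
    have hK : b' ≤ D K n := (hb'b.trans hb).trans (hDmono K m n ((le_max_left m K).trans hn))
    obtain ⟨N, hKN, hNn, hN, hmax⟩ := C2_max (fun N => b' ≤ D N n) K n hK
      ((le_max_right m K).trans hn)
    have hcap : b' ≤ cap f (N + 1) n (un φ N n) := le_trans hN (hDcap N n)
    have h1 := le_cap_iff.1 hcap b' le_rfl hb'0 A hA (fun a ha => by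
      have h2 : b' ≤ σ n a := hb'b.trans (hbA a ha)
      have h3 : b' ⊓ σ n a ≤ un φ N n a := by
        rw [hσ]
        simp only
        rw [inf_iSup₂_eq]
        refine iSup₂_le fun M hM => ?_
        by_cases hMN : M ≤ N
        · exact (inf_le_right.trans inf_le_right).trans (C2_le_un φ hMN n a)
        · rcases hdec M (Finset.mem_range.2 (Nat.lt_succ_of_le hM)) with h4 | h4
          · exact absurd h4 (hmax M (not_le.1 hMN) hM)
          · rw [← inf_assoc, h4, bot_inf_eq]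
            exact bot_le
      exact (le_inf le_rfl h2).trans h3)
    exact (Nat.mul_le_mul_right _ (hKN.trans (Nat.le_succ N))).trans h1
  · rw [eq_top_iff, ← hDtop N]
    refine iSup_le fun m => le_iSup_of_le (max m N) (le_iInf₂ fun n hn => le_iInf fun a => ?_)
    rw [le_himp_iff]
    refine le_iSup₂_of_le N ((le_max_right m N).trans hn) ?_
    exact inf_le_inf_right _ (hDmono N m n ((le_max_left m N).trans hn))

end Pool.Agent.LibMA42
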