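import Pool.Agent.LibMA42.C1

/-!
MP_3a91e3_lc, task C3: mixing.
-/

namespace Pool.Agent.LibMA42

variable {B : Type} [CompleteBooleanAlgebra B] {f : ℕ → ℕ}

/-- Each family can be made disjoint. HINT: well-order `ι` (`WellOrderingRel`) and put
`A i = S i ⊓ (⨆ j < i, S j)ᶜ`; `S i ≤ ⨆ j, A j` by well-founded induction. -/
theorem exists_disj {ι : Type} (S : ι → B) : ∃ A : ι → B, (∀ i, A i ≤ S i) ∧
    (∀ i j, i ≠ j → A i ⊓ A j = ⊥) ∧ ⨆ i, A i = ⨆ i, S i := by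
  classical
  have hwf : WellFounded (WellOrderingRel (α := ι)) := WellOrderingRel.isWellOrder.wf
  refine ⟨fun i => S i ⊓ (⨆ j, ⨆ (_ : WellOrderingRel j i), S j)ᶜ, fun i => inf_le_left, ?_, ?_⟩
  · have key : ∀ i j, WellOrderingRel i j →
        S i ⊓ (⨆ l, ⨆ (_ : WellOrderingRel l i), S l)ᶜ ⊓
          (S j ⊓ (⨆ l, ⨆ (_ : WellOrderingRel l j), S l)ᶜ) = ⊥ := by
      intro i j hij
      rw [eq_bot_iff]
      refine le_trans (inf_le_inf inf_le_left inf_le_right) ?_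
      refine le_trans (inf_le_inf_right _ (le_iSup₂ (f := fun l (_ : WellOrderingRel l j) => S l)
        i hij)) ?_
      rw [inf_compl_self]
    intro i j hij
    rcases (trichotomous_of WellOrderingRel i j) with h | h | h
    · exact key i j h
    · exact absurd h hij
    · rw [inf_comm]
      exact key j i h
  · refine le_antisymm (iSup_mono fun i => inf_le_left) (iSup_le fun i => ?_)
    induction i using hwf.induction with
    | _ i ih =>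
      rw [← inf_top_eq (S i), ← sup_compl_eq_top (x := ⨆ j, ⨆ (_ : WellOrderingRel j i), S j),
        inf_sup_left]
      refine sup_le (le_trans inf_le_right (iSup₂_le ih)) ?_
      exact le_iSup (fun i => S i ⊓ (⨆ j, ⨆ (_ : WellOrderingRel j i), S j)ᶜ) i

/-- HINT: `exists_disj` gives `A`; `ψ n a = ⨆ φ, A φ ⊓ φ n a`. As the `A φ` are disjoint, `A φ ⊓ ψ n a ≤ φ n a`,
so `A φ ≤ nul f ψ` (`cap_congr`; `nul f φ = ⊤`); and `(⨆ φ, A φ)ᶜ ⊓ ψ n a = ⊥`, so `(⨆ φ, A φ)ᶜ ≤ nul f ψ`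
(`cap_congr`, `cap_bot`). -/
theorem exists_mix (S : (ℕ → ℕ → B) → B) :
    ∃ ψ, NS f ψ ∧ (⨆ φ : ℕ → ℕ → B, ⨆ (_ : NS f φ), S φ) ≤
      ⨆ φ : ℕ → ℕ → B, ⨆ (_ : NS f φ), S φ ⊓ ⨅ n, ⨅ a, ((φ n a ⇨ ψ n a) ⊓ (ψ n a ⇨ φ n a)) := by
  classical
  obtain ⟨A, hA1, hA2, hA3⟩ := exists_disj (fun φ : ℕ → ℕ → B => ⨆ (_ : NS f φ), S φ)
  have hA0 : ∀ φ, ¬ NS f φ → A φ = ⊥ := by
    intro φ hφ
    rw [eq_bot_iff]
    refine le_trans (hA1 φ) (iSup_le fun h => absurd h hφ)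
  have hle : ∀ φ n a, A φ ⊓ (⨆ χ, A χ ⊓ χ n a) ≤ φ n a := by
    intro φ n a
    rw [inf_iSup_eq]
    refine iSup_le fun χ => ?_
    by_cases h : φ = χ
    · subst h
      exact le_trans inf_le_right inf_le_right
    · rw [← inf_assoc, hA2 φ χ h, bot_inf_eq]
      exact bot_le
  refine ⟨fun n a => ⨆ φ, A φ ⊓ φ n a, ⟨?_, ?_⟩, ?_⟩
  · intro n a ha
    rw [eq_bot_iff]
    refine iSup_le fun φ => ?_
    by_cases h : NS f φ
    · rw [h.sup n a ha, inf_bot_eq]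
    · rw [hA0 φ h, bot_inf_eq]
  · rw [eq_top_iff]
    refine le_iInf fun K => ?_
    rw [← sup_compl_eq_top (x := ⨆ φ, A φ)]
    refine sup_le (iSup_le fun φ => ?_) ?_
    · by_cases h : NS f φ
      · rw [← inf_top_eq (A φ), ← C1b_top h.nul K, inf_iSup_eq]
        refine iSup_mono fun m => le_iInf₂ fun n hn => ?_
        refine le_trans (inf_le_inf_left _ (iInf₂_le n hn)) ?_
        refine le_trans (inf_le_inf_right _ (le_iInf fun a => ?_)) (cap_congr _ (φ n))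
        rw [le_himp_iff]
        exact hle φ n a
      · rw [hA0 φ h]
        exact bot_le
    · refine le_iSup_of_le 0 (le_iInf₂ fun n _ => ?_)
      refine le_trans ?_ (cap_congr _ (fun _ => (⊥ : B)))
      rw [cap_bot, inf_top_eq]
      refine le_iInf fun a => ?_
      rw [himp_bot]
      exact compl_le_compl (iSup_mono fun φ => inf_le_left)
  · rw [← hA3]
    refine iSup_le fun φ => ?_
    by_cases h : NS f φ
    · refine le_iSup₂_of_le φ h (le_inf (le_trans (hA1 φ) (iSup_le fun _ => le_rfl)) ?_)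
      refine le_iInf fun n => le_iInf fun a => le_inf ?_ ?_
      · rw [le_himp_iff]
        exact le_iSup (fun φ => A φ ⊓ φ n a) φ
      · rw [le_himp_iff]
        exact hle φ n a
    · rw [hA0 φ h]
      exact bot_le

/-- If, below `b`, some null slalom is outside of each `m i` (`i : ι`), where each `m i` is hereditary,
then there is one name for it. HINT: `exists_mix` with `S φ = (⨆ i, m i φ)ᶜ`; on the piece of `φ`,
`ψ = φ`, so `m i ψ ≤ m i φ`. -/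
theorem exists_outside {ι : Type} (b : B) (m : ι → (ℕ → ℕ → B) → B)
    (hm : ∀ i φ ψ, NS f φ → NS f ψ → m i φ ⊓ ale ψ φ ≤ m i ψ)
    (h : b ≤ ⨆ φ : ℕ → ℕ → B, ⨆ (_ : NS f φ), (⨆ i, m i φ)ᶜ) :
    ∃ ψ, NS f ψ ∧ ∀ i, b ⊓ m i ψ = ⊥ := by
  obtain ⟨ψ, hψ, hle⟩ := exists_mix (f := f) (fun φ => (⨆ i, m i φ)ᶜ)
  refine ⟨ψ, hψ, fun i => ?_⟩
  rw [eq_bot_iff]
  refine le_trans (inf_le_inf_right _ (le_trans h hle)) ?_
  rw [iSup_inf_eq]
  refine iSup_le fun φ => ?_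
  rw [iSup_inf_eq]
  refine iSup_le fun hφ => ?_
  have h1 : (⨅ n, ⨅ a, ((φ n a ⇨ ψ n a) ⊓ (ψ n a ⇨ φ n a))) ≤ ale φ ψ := by
    refine le_iSup_of_le 0 (le_iInf₂ fun n _ => le_iInf fun a => ?_)
    exact le_trans (iInf₂_le n a) inf_le_left
  have h2 : m i ψ ⊓ ale φ ψ ≤ m i φ := hm i ψ φ hψ hφ
  calc (⨆ i, m i φ)ᶜ ⊓ (⨅ n, ⨅ a, ((φ n a ⇨ ψ n a) ⊓ (ψ n a ⇨ φ n a))) ⊓ m i ψ
      ≤ (⨆ i, m i φ)ᶜ ⊓ ale φ ψ ⊓ m i ψ := inf_le_inf_right _ (inf_le_inf_left _ h1)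
    _ = (⨆ i, m i φ)ᶜ ⊓ (m i ψ ⊓ ale φ ψ) := by
        rw [inf_assoc, inf_comm (ale φ ψ)]
    _ ≤ (⨆ i, m i φ)ᶜ ⊓ (⨆ i, m i φ) :=
        inf_le_inf_left _ (le_trans h2 (le_iSup (fun i => m i φ) i))
    _ ≤ ⊥ := by rw [compl_inf_self]

end Pool.Agent.LibMA42
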