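import Pool.Agent.LibMA42.C2
import Pool.Agent.LibMA42.C3

/-!
MP_3a91e3_lc, task C4a: in the model `I_f` is not the union of few proper ideals (Boolean version).
-/

namespace Pool.Agent.LibMA42

open Cardinal Pool.Agent.LibTk83

section

variable {B : Type} [CompleteBooleanAlgebra B] (f : ℕ → ℕ)

/-- Below `b`, the `m i` are proper ideals which cover the null slaloms. -/
structure Cov {ι : Type} (b : B) (m : ι → (ℕ → ℕ → B) → B) : Prop where
  join : ∀ i σ τ φ, NS f σ → NS f τ → NS f φ → m i σ ⊓ m i τ ⊓ ale φ (jn σ τ) ≤ m i φ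
  cov : ∀ φ, NS f φ → b ≤ ⨆ i, m i φ
  proper : ∀ i, ∃ φ, NS f φ ∧ b ⊓ m i φ = ⊥

variable (B) in
/-- There is no such covering with the index type `ι`. -/
def NoCov (ι : Type) : Prop := ∀ (b : B) (m : ι → (ℕ → ℕ → B) → B), Cov f b m → b = ⊥

variable {f}

/-- HINT: `ale φ (jn σ σ) = ale φ σ`. -/
theorem Cov.her {ι : Type} {b : B} {m : ι → (ℕ → ℕ → B) → B} (h : Cov f b m) (i : ι)
    (φ ψ : ℕ → ℕ → B) (hφ : NS f φ) (hψ : NS f ψ) : m i φ ⊓ ale ψ φ ≤ m i ψ := by
  have h1 := h.join i φ φ ψ hφ hφ hψ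
  have h2 : jn φ φ = φ := by
    funext n a
    exact sup_idem (φ n a)
  rw [h2, inf_idem] at h1
  exact h1

/-- HINT: a countable family `φ i` with `b ⊓ m i (φ i) = ⊥` has an upper bound `σ` (`ctbl_bound`; if `ι` is
empty then `cov` gives `b ≤ ⊥`), and `b ⊓ m i σ ≤ b ⊓ m i (φ i) = ⊥`. -/
theorem noCov_countable (ι : Type) [Countable ι] : NoCov B f ι := by
  intro b m h
  rcases isEmpty_or_nonempty ι with hι | hι
  · rw [eq_bot_iff]
    refine le_trans (h.cov _ NS.bot) ?_
    rw [iSup_of_empty]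
  · obtain ⟨e, he⟩ := exists_surjective_nat ι
    choose φ hφ hb using h.proper
    obtain ⟨σ, hσ, hle⟩ := ctbl_bound (φ := fun n => φ (e n)) (fun n => hφ (e n))
    rw [eq_bot_iff]
    calc b ≤ b ⊓ ⨆ i, m i σ := le_inf le_rfl (h.cov σ hσ)
      _ ≤ ⊥ := by
        rw [inf_iSup_eq]
        refine iSup_le fun i => ?_
        obtain ⟨n, rfl⟩ := he i
        have h1 := h.her (e n) σ (φ (e n)) hσ (hφ (e n))
        rw [hle n, inf_top_eq] at h1
        exact le_trans (inf_le_inf_left _ h1) (hb (e n)).le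

/-- HINT: if `ι` is empty: `noCov_countable`. Otherwise there is a surjection `s : κ → ι` (inverse of `g`);
use `m (s k)`. -/
theorem NoCov.of_injective {ι κ : Type} (h : NoCov B f κ) (g : ι → κ)
    (hg : Function.Injective g) : NoCov B f ι := by
  rcases isEmpty_or_nonempty ι with hι | hι
  · exact noCov_countable ι
  · intro b m hm
    have hs : Function.Surjective (Function.invFun g) := Function.invFun_surjective hg
    refine h b (fun k => m (Function.invFun g k)) ⟨fun i => hm.join _, fun φ hφ => ?_,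
      fun i => hm.proper _⟩
    rw [hs.iSup_comp (g := fun i => m i φ)]
    exact hm.cov φ hφ

end

end Pool.Agent.LibMA42
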