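import Mathlib

/-!
MP_3a91e3_lc, task C4b: greedy colouring, fibres.
-/

namespace Pool.Agent.LibMA42

open Cardinal

theorem C4b_new {L K : Type} [LinearOrder L] [LinearOrder K]
    (hK : ∀ ξ : K, #(Set.Iic ξ) < #K) (e : L → L → K)
    (he : ∀ j, Set.InjOn (e j) (Set.Iio j)) (ξ : K) (j : L) (g : ∀ i, i < j → K) :
    ∃ k : K, ∀ i (h : i < j), e j i ≤ ξ → g i h ≠ k := by
  by_contra hc
  push Not at hc
  choose i hi hle hg using hc
  have hinj : Function.Injective (fun k : K => (⟨e j (i k), hle k⟩ : Set.Iic ξ)) := by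
    intro a b hab
    have h1 : e j (i a) = e j (i b) := congrArg Subtype.val hab
    have h2 : i a = i b := he j (hi a) (hi b) h1
    have h3 : g (i a) (hi a) = g (i b) (hi b) := by
      congr 1
    rw [hg, hg] at h3
    exact h3
  exact absurd (Cardinal.mk_le_of_injective hinj) (not_le.mpr (hK ξ))

/-- Greedy colouring. HINT: define `c j` by well-founded recursion on `j : L` as some element of `K` which is
not in the set of the `c i` with `i < j`, `e j i ≤ ξ`; this set is smaller than `K`, because the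
set of these `i` is mapped injectively into `Set.Iic ξ` by `e j`. -/
theorem exists_colour {L K : Type} [LinearOrder L] [WellFoundedLT L] [LinearOrder K]
    (hK : ∀ ξ : K, #(Set.Iic ξ) < #K) (e : L → L → K)
    (he : ∀ j, Set.InjOn (e j) (Set.Iio j)) (ξ : K) :
    ∃ c : L → K, ∀ i j, i < j → e j i ≤ ξ → c i ≠ c j := by
  choose F hF using fun j g => C4b_new hK e he ξ j g
  let c : L → K := (wellFounded_lt (α := L)).fix (fun j g => F j g)
  have hc : ∀ j, c j = F j (fun i _ => c i) := fun j => (wellFounded_lt (α := L)).fix_eq _ j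
  refine ⟨c, fun i j hij h => ?_⟩
  rw [hc j]
  exact hF j (fun i _ => c i) i hij h

/-- HINT: otherwise `L` is the union of the fibres, which are countable, so
`#L ≤ #(K × K) * ℵ₀ = #K`. -/
theorem exists_fibre {L K : Type} [Infinite K] (hLK : #K < #L) (x y : L → K) :
    ∃ a b, ¬ {l | x l = a ∧ y l = b}.Countable := by
  by_contra hc
  push Not at hc
  have h1 : (⋃ p : K × K, {l | x l = p.1 ∧ y l = p.2}) = (Set.univ : Set L) := by
    ext l
    simp
  have h2 := Cardinal.mk_iUnion_le (fun p : K × K => {l | x l = p.1 ∧ y l = p.2})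
  rw [h1, Cardinal.mk_univ] at h2
  have h3 : (⨆ p : K × K, #({l | x l = p.1 ∧ y l = p.2} : Set L)) ≤ ℵ₀ :=
    ciSup_le' fun p => Cardinal.mk_le_aleph0_iff.mpr (hc p.1 p.2)
  have h4 : ℵ₀ ≤ #K := Cardinal.aleph0_le_mk K
  have h5 : #(K × K) = #K := by
    rw [Cardinal.mk_prod, Cardinal.lift_id, Cardinal.mul_eq_self h4]
  have h6 : #L ≤ #K := by
    calc #L ≤ _ := h2
      _ ≤ #K * ℵ₀ := by rw [h5]; exact mul_le_mul_right h3 _
      _ = #K := Cardinal.mul_eq_left h4 h4 Cardinal.aleph0_ne_zero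
  exact absurd h6 (not_le.mpr hLK)

end Pool.Agent.LibMA42
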