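import Pool.Agent.LibMA42.C4a
import Pool.Agent.LibMA42.C4b

/-!
MP_3a91e3_lc, task C4c: the main step.
-/

namespace Pool.Agent.LibMA42

open Cardinal Pool.Agent.LibTk83

variable {B : Type} [CompleteBooleanAlgebra B] {f : ℕ → ℕ}

/-- HINT. Let `b`, `m` with `Cov f b m` and index type `K`. For `δ : K` let
`b' = b ⊓ ⨅ φ, ⨅ (_ : NS f φ), ⨆ i : Set.Iio δ, m i φ`; then `Cov f b'` holds for the family `m i`, `i : Set.Iio δ`, so
`b' = ⊥` by `hI`. Hence `b ≤ ⨆ φ, ⨆ (_ : NS f φ), (⨆ i : Set.Iio δ, m i φ)ᶜ`, and by `exists_outside`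
(with `Cov.her`) there is `φ δ` with `b ⊓ m i (φ δ) = ⊥` for all `i < δ`. Let `σ` be given by `hstar` for
the family `i j ↦ φ (e (max i j) (min i j))`. Suppose `b ≠ ⊥`. As `b ≤ ⨆ ξ, m ξ (σ i)` choose `x i` with
`Z i := b ⊓ m (x i) (σ i) ≠ ⊥`. By `exists_colour` for each `ξ` and `exists_fibre` (for `x` and
`i ↦ c (x i) i`) there is an uncountable set `S` on which `x` is a constant `ξ`, and for `i < j` in `S`:
`e j i > ξ`, so `b ⊓ m ξ (φ (e j i)) = ⊥`, and `Z i ⊓ Z j ≤ b ⊓ m ξ (φ (e j i))` by `join` and `hstar`.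
So the `Z i` (`i : S`) are pairwise disjoint, in contradiction to `hccc`. -/
theorem noCov_step {K L : Type} [LinearOrder K] [LinearOrder L] [WellFoundedLT L] [Infinite K]
    (hccc : ∀ (J : Type) (x : J → B), (∀ j, x j ≠ ⊥) → (∀ i j, i ≠ j → x i ⊓ x j = ⊥) →
      Countable J)
    (hstar : ∀ φ : L → L → ℕ → ℕ → B, (∀ i j, NS f (φ i j)) →
      ∃ σ : L → ℕ → ℕ → B, (∀ i, NS f (σ i)) ∧
        ∀ i j, i ≠ j → ale (φ i j) (jn (σ i) (σ j)) = ⊤)
    (hK : ∀ ξ : K, #(Set.Iic ξ) < #K) (hLK : #K < #L) (e : L → L → K)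
    (he : ∀ j, Set.InjOn (e j) (Set.Iio j)) (hI : ∀ δ : K, NoCov B f (Set.Iio δ)) :
    NoCov B f K := by
  intro b m hcov
  by_contra hb
  have hφ : ∀ δ : K, ∃ φ, NS f φ ∧ ∀ i : Set.Iio δ, b ⊓ m i φ = ⊥ := by
    intro δ
    apply exists_outside b (fun i : Set.Iio δ => m i)
    · intro i φ ψ h1 h2
      exact hcov.her i φ ψ h1 h2
    · have h1 : Cov f (b ⊓ ⨅ φ : ℕ → ℕ → B, ⨅ (_ : NS f φ), ⨆ i : Set.Iio δ, m i φ)
          (fun i : Set.Iio δ => m i) := by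
        refine ⟨fun i σ τ φ => hcov.join i σ τ φ, ?_, ?_⟩
        · intro φ hφ
          exact inf_le_right.trans (iInf₂_le φ hφ)
        · intro i
          obtain ⟨φ, h, h'⟩ := hcov.proper i
          exact ⟨φ, h, le_bot_iff.mp ((inf_le_inf_right _ inf_le_left).trans h'.le)⟩
      have h2 := hI δ _ _ h1
      have h3 : b ≤ (⨅ φ : ℕ → ℕ → B, ⨅ (_ : NS f φ), ⨆ i : Set.Iio δ, m i φ)ᶜ := by
        rw [le_compl_iff_disjoint_right, disjoint_iff]
        exact h2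
      simpa only [compl_iInf] using h3
  choose φ hφN hφb using hφ
  obtain ⟨σ, hσN, hσ⟩ := hstar (fun i j => φ (e (max i j) (min i j))) (fun i j => hφN _)
  have hx : ∀ i : L, ∃ k : K, b ⊓ m k (σ i) ≠ ⊥ := by
    intro i
    by_contra hc
    push Not at hc
    apply hb
    have h1 := hcov.cov (σ i) (hσN i)
    have h2 : b ≤ b ⊓ ⨆ k, m k (σ i) := le_inf le_rfl h1
    rw [inf_iSup_eq] at h2
    simpa [hc] using h2
  choose x hx using hx
  have hc : ∀ ξ : K, ∃ c : L → K, ∀ i j, i < j → e j i ≤ ξ → c i ≠ c j :=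
    exists_colour hK e he
  choose c hc using hc
  obtain ⟨ξ, y, hS⟩ := exists_fibre hLK x (fun i => c (x i) i)
  apply hS
  have key : ∀ i j : L, i < j → x i = ξ → x j = ξ → c (x i) i = y → c (x j) j = y →
      (b ⊓ m (x i) (σ i)) ⊓ (b ⊓ m (x j) (σ j)) = ⊥ := by
    intro i j hij hxi hxj hci hcj
    rw [hxi] at hci ⊢
    rw [hxj] at hcj ⊢
    have h1 : ξ < e j i := by
      by_contra h
      exact hc ξ i j hij (not_lt.mp h) (hci.trans hcj.symm)
    have h2 : m ξ (σ i) ⊓ m ξ (σ j) ≤ m ξ (φ (e j i)) := by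
      have h5 := hcov.join ξ (σ i) (σ j) (φ (e j i)) (hσN i) (hσN j) (hφN _)
      have h3 := hσ i j hij.ne
      simp only [max_eq_right hij.le, min_eq_left hij.le] at h3
      rw [h3, inf_top_eq] at h5
      exact h5
    have h4 : b ⊓ m ξ (φ (e j i)) = ⊥ := hφb (e j i) ⟨ξ, h1⟩
    exact le_bot_iff.mp ((le_inf (inf_le_left.trans inf_le_left)
      ((inf_le_inf inf_le_right inf_le_right).trans h2)).trans h4.le)
  have h6 := hccc {l | x l = ξ ∧ c (x l) l = y} (fun i => b ⊓ m (x i) (σ i)) (fun i => hx i)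
    (by
      rintro ⟨i, hi, hi'⟩ ⟨j, hj, hj'⟩ hij
      have hne : i ≠ j := fun h => hij (Subtype.ext h)
      rcases lt_or_gt_of_ne hne with h | h
      · exact key i j h hi hj hi' hj'
      · rw [inf_comm]
        exact key j i h hj hi hj' hi')
  exact Set.countable_coe_iff.mp h6

end Pool.Agent.LibMA42
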