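import Pool.Agent.LibMA42.C4c

/-!
MP_3a91e3_lc, task C4d: the induction.
-/

namespace Pool.Agent.LibMA42

open Cardinal Pool.Agent.LibTk83

variable {B : Type} [CompleteBooleanAlgebra B] {f : ℕ → ℕ}

theorem C4d_mk (k : ℕ) : #(KK k) = aleph (k + 1 : ℕ) := mk_Gt (k + 2)

theorem C4d_succ (k : ℕ) : #(KK (k + 1)) = Order.succ #(KK k) := by
  rw [C4d_mk, C4d_mk, succ_aleph]
  norm_cast

theorem C4d_Iio (k : ℕ) (x : KK k) : #(Set.Iio x) < #(KK k) := by
  exact mk_Iio_lt x (by rw [mk_Gt]; simp)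

theorem C4d_inf (k : ℕ) : ℵ₀ ≤ #(KK k) := by
  rw [C4d_mk]
  exact aleph0_le_aleph _

theorem C4d_Iic (k : ℕ) (x : KK k) : #(Set.Iic x) < #(KK k) := by
  have h4 : Set.Iic x = insert x (Set.Iio x) := by
    ext z
    rw [Set.mem_Iic, Set.mem_insert_iff, Set.mem_Iio, le_iff_eq_or_lt]
  rw [h4]
  refine (mk_insert_le).trans_lt ?_
  exact add_lt_of_lt (C4d_inf k) (C4d_Iio k x) (one_lt_aleph0.trans_le (C4d_inf k))

theorem C4d_emb (k : ℕ) (j : KK (k + 1)) : ∃ g : Set.Iio j → KK k, Function.Injective g := by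
  have h1 : #(Set.Iio j) ≤ #(KK k) := by
    have h2 := C4d_Iio (k + 1) j
    rw [C4d_succ] at h2
    exact Order.lt_succ_iff.mp h2
  rw [le_def] at h1
  exact ⟨h1.some, h1.some.injective⟩

/-- HINT: induction on `k`. `K = KK k`, `L = KK (k + 1)`; `#(Set.Iio ξ) < #K` (initial ordinals:
`Cardinal.mk_Iio_lt`, see LibTk83/Q2, Q3), so `#(Set.Iic ξ) < #K`; `#(Set.Iio j) ≤ #K` for `j : L` (as
`#L = succ #K`) gives `e`; `II_lt`. `hI`: for `k = 0` the set `Set.Iio δ` is countable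
(`noCov_countable`), for `k = k' + 1` it can be mapped injectively into `KK k'`
(`NoCov.of_injective`). -/
theorem noCov_KK (M : Model B f) (k : ℕ) : NoCov B f (KK k) := by
  classical
  have step : ∀ k : ℕ, (∀ δ : KK k, NoCov B f (Set.Iio δ)) → NoCov B f (KK k) := by
    intro k hI
    have hinf : Infinite (KK k) := infinite_iff.mpr (C4d_inf k)
    choose g hg using C4d_emb k
    obtain ⟨a⟩ : Nonempty (KK k) := inferInstance
    refine noCov_step (K := KK k) (L := KK (k + 1)) M.ccc (M.star (k + 1)) (C4d_Iic k) ?_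
      (fun j i => if h : i ∈ Set.Iio j then g j ⟨i, h⟩ else a) ?_ hI
    · rw [C4d_succ]
      exact Order.lt_succ _
    · intro j x hx y hy hxy
      simp only [dif_pos hx, dif_pos hy] at hxy
      exact congrArg Subtype.val (hg j hxy)
  induction k with
  | zero =>
    refine step 0 fun δ => ?_
    have h1 : Countable (Set.Iio δ) := by
      rw [← mk_le_aleph0_iff]
      have h2 := C4d_Iio 0 δ
      rw [C4d_mk] at h2
      have h3 : aleph ((0 + 1 : ℕ) : Ordinal.{0}) = Order.succ ℵ₀ := by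
        rw [← aleph_zero, succ_aleph]
        norm_cast
      rw [h3] at h2
      exact Order.lt_succ_iff.mp h2
    exact noCov_countable _
  | succ k ih =>
    refine step (k + 1) fun δ => ?_
    obtain ⟨g, hg⟩ := C4d_emb k δ
    exact ih.of_injective g hg

/-- The result which is used in `V^B`. -/
theorem no_cover (M : Model B f) (k : ℕ) (b : B) (m : KK k → (ℕ → ℕ → B) → B)
    (hjoin : ∀ i σ τ φ, NS f σ → NS f τ → NS f φ → m i σ ⊓ m i τ ⊓ ale φ (jn σ τ) ≤ m i φ)
    (hcov : ∀ φ, NS f φ → b ≤ ⨆ i, m i φ)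
    (hprop : ∀ i, ∃ φ, NS f φ ∧ b ⊓ m i φ = ⊥) : b = ⊥ :=
  noCov_KK M k b m ⟨hjoin, hcov, hprop⟩

end Pool.Agent.LibMA42
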