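import Pool.Agent.LibTk83.GrDef

/-!
MP_3a91e3_lc (helper42, helper21): Boolean-valued null slaloms, and the properties of the algebra
which are used in the Boolean-valued universe.
-/

namespace Pool.Agent.LibMA42

open Pool.Agent.LibTk83

/-- The types `ω_1, ω_2, ...` -/
abbrev KK (n : ℕ) : Type := II n

section

variable {B : Type} [CompleteBooleanAlgebra B] (f : ℕ → ℕ)

/-- Truth value of `K |x| ≤ f n`, for a Boolean-valued subset `x` of `f n`. -/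
noncomputable def cap (K n : ℕ) (x : ℕ → B) : B :=
  ⨅ A : Finset ℕ, ⨅ (_ : A ⊆ Finset.range (f n) ∧ f n < K * A.card), (⨅ a ∈ A, x a)ᶜ

/-- Truth value of: `φ` is a null slalom. -/
noncomputable def nul (φ : ℕ → ℕ → B) : B :=
  ⨅ K : ℕ, ⨆ m : ℕ, ⨅ n : ℕ, ⨅ (_ : m ≤ n), cap f K n (φ n)

/-- `φ` is a name of a null slalom. -/
structure NS (φ : ℕ → ℕ → B) : Prop where
  sup : ∀ n a, f n ≤ a → φ n a = ⊥
  nul : nul f φ = ⊤

/-- Truth value of: `φ(n) ⊆ ψ(n)` for almost all `n`. -/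
noncomputable def ale (φ ψ : ℕ → ℕ → B) : B :=
  ⨆ m : ℕ, ⨅ n : ℕ, ⨅ (_ : m ≤ n), ⨅ a : ℕ, (φ n a ⇨ ψ n a)

/-- The name of the slalom `n ↦ φ(n) ∪ ψ(n)`. -/
def jn (φ ψ : ℕ → ℕ → B) (n a : ℕ) : B := φ n a ⊔ ψ n a

variable (B) in
/-- The properties of the algebra: the countable chain condition; the star property: for each
family `φ i j` of null slaloms, indexed by the pairs of elements of `ω_(k+1)`, there are null
slaloms `σ i` such that `φ i j` is almost contained in `σ i ∪ σ j`; and there is an unbounded family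
of `ℵ_1` null slaloms. -/
structure Model : Prop where
  ccc : ∀ (J : Type) (x : J → B), (∀ j, x j ≠ ⊥) → (∀ i j, i ≠ j → x i ⊓ x j = ⊥) → Countable J
  star : ∀ (k : ℕ) (φ : KK k → KK k → ℕ → ℕ → B), (∀ i j, NS f (φ i j)) →
    ∃ σ : KK k → ℕ → ℕ → B, (∀ i, NS f (σ i)) ∧ ∀ i j, i ≠ j → ale (φ i j) (jn (σ i) (σ j)) = ⊤
  unb : ∃ τ : KK 0 → ℕ → ℕ → B, (∀ i, NS f (τ i)) ∧ ∀ ψ, NS f ψ → ⨅ i, ale (τ i) ψ = ⊥

end

end Pool.Agent.LibMA42
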