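import Pool.Agent.LibTk83.RO

/-!
MP_3a91e3_lc, forcing side (helper42): conditions, their order, validity.

`Ix` is the index set, `W` the well-ordered set of stages. A condition is a function `p : W → SC Ix`
with finite support `{w | (p w).F.Nonempty}`.
-/

namespace Pool.Agent.LibMA42

open Pool.Agent.LibTk83

/-- The part of a condition at one stage: a finite set `F` of indices, the height `h`, the promise
`k`, the sets `s i n` (meaningful for `i ∈ F`, `n < h`) and the levels `c i j` (meaningful for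
`i, j ∈ F`) from which the link of `i` and `j` is active. -/
structure SC (Ix : Type) : Type where
  F : Finset Ix
  h : ℕ
  k : ℕ
  s : Ix → ℕ → Finset ℕ
  c : Ix → Ix → ℕ

/-- Nothing. -/
def SC.triv {Ix : Type} : SC Ix := ⟨∅, 0, 0, fun _ _ => ∅, fun _ _ => 0⟩

abbrev Cnd (W Ix : Type) : Type := W → SC Ix

variable {W Ix : Type} (f : ℕ → ℕ)

/-- `q` is stronger than `p` (one stage). -/
def SLe (q p : SC Ix) : Prop :=
  ∀ i ∈ p.F, i ∈ q.F ∧ p.h ≤ q.h ∧ p.k ≤ q.k ∧ (∀ n, n < p.h → q.s i n = p.s i n) ∧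
    (∀ n, p.h ≤ n → n < q.h → p.k * (q.s i n).card ≤ f n) ∧ ∀ j ∈ p.F, q.c i j = p.c i j

/-- `q` is stronger than `p`. -/
def CLe (q p : Cnd W Ix) : Prop := ∀ w, SLe f (q w) (p w)

/-- The support of a condition. -/
def supp (p : Cnd W Ix) : Set W := {w | (p w).F.Nonempty}

/-- Names, over an abstract poset `Q`: `T r i j n` is the set of the elements of `f n` which are forced
by `r` to be in the slalom `φ i j` at `n`; the slaloms are forced to be null. -/
structure Nm (Q : Type) [Preorder Q] (Ix : Type) where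
  T : Q → Ix → Ix → ℕ → Finset ℕ
  mono : ∀ r r' i j n, r' ≤ r → T r i j n ⊆ T r' i j n
  sub : ∀ r i j n, T r i j n ⊆ Finset.range (f n)
  null : ∀ i j K r, ∃ r', r' ≤ r ∧ ∃ m, ∀ n, m ≤ n → ∀ r'', r'' ≤ r' → K * (T r'' i j n).card ≤ f n

open Classical in
/-- The union of the slaloms of all the links inside `F`. -/
noncomputable def UT (T : Ix → Ix → ℕ → Finset ℕ) (F : Finset Ix) (n : ℕ) : Finset ℕ :=
  F.offDiag.biUnion fun x => T x.1 x.2 n

open Classical in
/-- The local part `q` is valid over `r`. -/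
structure OKS {Q : Type} [Preorder Q] (N : Nm f Q Ix) (r : Q) (q : SC Ix) : Prop where
  v0 : ∀ i ∈ q.F, ∀ n, n < q.h → q.s i n ⊆ Finset.range (f n)
  v2 : ∀ n, q.h ≤ n → ∀ r', r' ≤ r → 2 * q.k * (UT (N.T r') q.F n).card ≤ f n
  v3 : ∀ i ∈ q.F, ∀ j ∈ q.F, i ≠ j → ∀ n, n < q.h → q.c i j ≤ n → ∀ r', r' ≤ r →
    N.T r' i j n ⊆ q.s i n ∪ q.s j n

open Classical in
/-- The elements of `f n` which `r` forces (by `L`) to be in the slalom of `i`, `j` at `n`. -/
noncomputable def TT (L : Ix → Ix → ℕ → ℕ → Set (Cnd W Ix)) (r : Cnd W Ix) (i j : Ix) (n : ℕ) :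
    Finset ℕ :=
  (Finset.range (f n)).filter fun a => ∃ c ∈ L i j n a, CLe f r c

/-- The names given by `L` are forced to be null slaloms. `PV` is the set of the valid conditions. -/
def Gd (PV : Cnd W Ix → Prop) (L : Ix → Ix → ℕ → ℕ → Set (Cnd W Ix)) : Prop :=
  ∀ i j K r, PV r → ∃ r', PV r' ∧ CLe f r' r ∧ ∃ m, ∀ n, m ≤ n → ∀ r'', PV r'' → CLe f r'' r' →
    K * (TT f L r'' i j n).card ≤ f n

open Classical in
/-- The names which are used: those given by `L` if they are null slaloms. -/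
noncomputable def TE (PV : Cnd W Ix → Prop) (L : Ix → Ix → ℕ → ℕ → Set (Cnd W Ix))
    (r : Cnd W Ix) (i j : Ix) (n : ℕ) : Finset ℕ :=
  if Gd f PV L then TT f L r i j n else ∅

open Classical in
/-- The local part `q` is valid over `r`. -/
structure OKb (PV : Cnd W Ix → Prop) (L : Ix → Ix → ℕ → ℕ → Set (Cnd W Ix)) (r : Cnd W Ix)
    (q : SC Ix) : Prop where
  v0 : ∀ i ∈ q.F, ∀ n, n < q.h → q.s i n ⊆ Finset.range (f n)
  v2 : ∀ n, q.h ≤ n → ∀ r', PV r' → CLe f r' r → 2 * q.k * (UT (TE f PV L r') q.F n).card ≤ f n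
  v3 : ∀ i ∈ q.F, ∀ j ∈ q.F, i ≠ j → ∀ n, n < q.h → q.c i j ≤ n → ∀ r', PV r' → CLe f r' r →
    TE f PV L r' i j n ⊆ q.s i n ∪ q.s j n

variable [LinearOrder W]

open Classical in
/-- The restriction of `p` to the stages less than `w`. -/
noncomputable def res (w : W) (p : Cnd W Ix) : Cnd W Ix := fun v => if v < w then p v else SC.triv

/-- The valid conditions of stage `w`, if `O v` is the validity at the stages `v < w`. -/
def PVa (w : W) (O : ∀ v, v < w → Cnd W Ix → Prop) (r : Cnd W Ix) : Prop :=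
  (supp r).Finite ∧ (∀ v, w ≤ v → (r v).F = ∅) ∧ ∀ v (h : v < w), O v h r

variable [WellFoundedLT W] (lab : W → Ix → Ix → ℕ → ℕ → Set (Cnd W Ix))

/-- The condition `p` is valid at the stage `w`. -/
def OK : W → Cnd W Ix → Prop :=
  (wellFounded_lt (α := W)).fix fun w ih p => OKb f (PVa w ih) (lab w) (res w p) (p w)

/-- The valid conditions of stage `w`. -/
def PV (w : W) (r : Cnd W Ix) : Prop :=
  (supp r).Finite ∧ (∀ v, w ≤ v → (r v).F = ∅) ∧ ∀ v, v < w → OK f lab v r

/-- The valid conditions. -/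
def VV (p : Cnd W Ix) : Prop := (supp p).Finite ∧ ∀ w, OK f lab w p

theorem OK_iff (w : W) (p : Cnd W Ix) :
    OK f lab w p ↔ OKb f (PV f lab w) (lab w) (res w p) (p w) := by
  unfold OK
  rw [WellFounded.fix_eq]
  rfl

end Pool.Agent.LibMA42
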