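import Pool.Agent.LibMA42.F0

/-!
MP_3a91e3_lc, forcing side: basic lemmas, the posets.
-/

namespace Pool.Agent.LibMA42

open Pool.Agent.LibTk83

variable {W Ix : Type} {f : ℕ → ℕ}

theorem SLe.refl (p : SC Ix) : SLe f p p := fun i hi =>
  ⟨hi, le_rfl, le_rfl, fun _ _ => rfl, fun _ h h' => absurd h (not_le.2 h'), fun _ _ => rfl⟩

theorem SLe.trans {p q r : SC Ix} (h : SLe f p q) (h' : SLe f q r) : SLe f p r := by
  intro i hi
  obtain ⟨h1, h2, h3, h4, h5, h6⟩ := h' i hi
  obtain ⟨g1, g2, g3, g4, g5, g6⟩ := h i h1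
  refine ⟨g1, h2.trans g2, h3.trans g3, fun n hn => (g4 n (hn.trans_le h2)).trans (h4 n hn),
    fun n hn hn' => ?_, fun j hj => ?_⟩
  · by_cases hq : n < q.h
    · rw [g4 n hq]
      exact h5 n hn hq
    · exact (Nat.mul_le_mul_right _ h3).trans (g5 n (not_lt.1 hq) hn')
  · rw [g6 j (h' j hj).1, h6 j hj]

theorem SLe.of_empty {p q : SC Ix} (h : q.F = ∅) : SLe f p q := by
  intro i hi
  rw [h] at hi
  exact absurd hi (Finset.notMem_empty i)

theorem CLe.refl (p : Cnd W Ix) : CLe f p p := fun _ => SLe.refl _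

theorem CLe.trans {p q r : Cnd W Ix} (h : CLe f p q) (h' : CLe f q r) : CLe f p r :=
  fun w => (h w).trans (h' w)

theorem CLe.mem {p q : Cnd W Ix} (h : CLe f p q) {w : W} {i : Ix} (hi : i ∈ (q w).F) :
    i ∈ (p w).F := (h w i hi).1

section

variable [LinearOrder W]

theorem res_of_lt {v w : W} (h : v < w) (p : Cnd W Ix) : res w p v = p v := by
  unfold res
  rw [if_pos h]

theorem res_of_le {v w : W} (h : w ≤ v) (p : Cnd W Ix) : res w p v = SC.triv := by
  unfold res
  rw [if_neg (not_lt.2 h)]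

theorem res_res {v w : W} (h : v ≤ w) (p : Cnd W Ix) : res v (res w p) = res v p := by
  funext u
  by_cases hu : u < v
  · rw [res_of_lt hu, res_of_lt hu, res_of_lt (hu.trans_le h)]
  · rw [res_of_le (not_lt.1 hu), res_of_le (not_lt.1 hu)]

theorem res_mono {w : W} {p q : Cnd W Ix} (h : CLe f p q) : CLe f (res w p) (res w q) := by
  intro v
  by_cases hv : v < w
  · rw [res_of_lt hv, res_of_lt hv]
    exact h v
  · rw [res_of_le (not_lt.1 hv), res_of_le (not_lt.1 hv)]
    exact SLe.refl _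

theorem le_res (w : W) (p : Cnd W Ix) : CLe f p (res w p) := by
  intro v
  by_cases hv : v < w
  · rw [res_of_lt hv]
    exact SLe.refl _
  · rw [res_of_le (not_lt.1 hv)]
    exact SLe.of_empty rfl

/-- A condition with support below `w` is equivalent to its restriction. -/
theorem res_le {w : W} {p : Cnd W Ix} (h : ∀ v, w ≤ v → (p v).F = ∅) : CLe f (res w p) p := by
  intro v
  by_cases hv : v < w
  · rw [res_of_lt hv]
    exact SLe.refl _
  · exact SLe.of_empty (h v (not_lt.1 hv))

theorem res_le_res {v w : W} (h : v ≤ w) (p : Cnd W Ix) : CLe f (res w p) (res v p) := by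
  rw [← res_res h]
  exact le_res v _

open Classical in
/-- The condition `p` with the part below `w` replaced by `r` and the part at `w` replaced by `q`. -/
noncomputable def rep (w : W) (r : Cnd W Ix) (q : SC Ix) (p : Cnd W Ix) : Cnd W Ix :=
  fun v => if v < w then r v else if v = w then q else p v

theorem rep_lt {v w : W} (h : v < w) (r : Cnd W Ix) (q : SC Ix) (p : Cnd W Ix) :
    rep w r q p v = r v := by
  unfold rep
  rw [if_pos h]

theorem rep_eq (w : W) (r : Cnd W Ix) (q : SC Ix) (p : Cnd W Ix) : rep w r q p w = q := by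
  unfold rep
  rw [if_neg (lt_irrefl w), if_pos rfl]

theorem rep_gt {v w : W} (h : w < v) (r : Cnd W Ix) (q : SC Ix) (p : Cnd W Ix) :
    rep w r q p v = p v := by
  unfold rep
  rw [if_neg (not_lt.2 h.le), if_neg h.ne']

end

section

variable [LinearOrder W] [WellFoundedLT W] {lab : W → Ix → Ix → ℕ → ℕ → Set (Cnd W Ix)}

theorem OKb.mono {P : Cnd W Ix → Prop} {L : Ix → Ix → ℕ → ℕ → Set (Cnd W Ix)} {r r' : Cnd W Ix}
    {q : SC Ix} (h : OKb f P L r q) (hr : CLe f r' r) : OKb f P L r' q :=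
  ⟨h.v0, fun n hn s hs hsr => h.v2 n hn s hs (hsr.trans hr),
    fun i hi j hj hij n hn hc s hs hsr => h.v3 i hi j hj hij n hn hc s hs (hsr.trans hr)⟩

open Classical in
theorem UT_empty (T : Ix → Ix → ℕ → Finset ℕ) (n : ℕ) : UT T ∅ n = ∅ := by
  unfold UT
  simp

theorem OKb.of_empty {P : Cnd W Ix → Prop} {L : Ix → Ix → ℕ → ℕ → Set (Cnd W Ix)} {r : Cnd W Ix}
    {q : SC Ix} (h : q.F = ∅) : OKb f P L r q := by
  refine ⟨fun i hi => ?_, fun n _ s _ _ => ?_, fun i hi => ?_⟩
  · rw [h] at hi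
    exact absurd hi (Finset.notMem_empty i)
  · rw [h, UT_empty]
    simp
  · rw [h] at hi
    exact absurd hi (Finset.notMem_empty i)

theorem OK_of_empty {w : W} {p : Cnd W Ix} (h : (p w).F = ∅) : OK f lab w p := by
  rw [OK_iff]
  exact OKb.of_empty h

/-- Validity at `w` depends only on the part of `p` up to `w`; below `w` the condition can be
made stronger. -/
theorem OK.mono {w : W} {p p' : Cnd W Ix} (h : OK f lab w p) (hw : p' w = p w)
    (hp : CLe f (res w p') (res w p)) : OK f lab w p' := by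
  rw [OK_iff] at h ⊢
  rw [hw]
  exact h.mono hp

theorem OK_congr {w : W} {p p' : Cnd W Ix} (h : ∀ v, v ≤ w → p' v = p v) :
    OK f lab w p' ↔ OK f lab w p := by
  rw [OK_iff, OK_iff, h w le_rfl]
  have h1 : res w p' = res w p := by
    funext v
    by_cases hv : v < w
    · rw [res_of_lt hv, res_of_lt hv, h v hv.le]
    · rw [res_of_le (not_lt.1 hv), res_of_le (not_lt.1 hv)]
  rw [h1]

theorem supp_res (w : W) (p : Cnd W Ix) : supp (res w p) = {v ∈ supp p | v < w} := by
  ext v
  unfold supp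
  simp only [Set.mem_setOf_eq]
  by_cases hv : v < w
  · rw [res_of_lt hv]
    simp [hv]
  · rw [res_of_le (not_lt.1 hv)]
    simp [hv, SC.triv]

theorem PV_res {w : W} {p : Cnd W Ix} (h : VV f lab p) : PV f lab w (res w p) := by
  refine ⟨?_, fun v hv => ?_, fun v hv => ?_⟩
  · rw [supp_res]
    exact h.1.subset fun v hv => hv.1
  · rw [res_of_le hv]
    rfl
  · rw [OK_congr (p := p) fun u hu => res_of_lt (hu.trans_lt hv) p]
    exact h.2 v

theorem PV.VV {w : W} {r : Cnd W Ix} (h : PV f lab w r) : VV f lab r := by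
  refine ⟨h.1, fun v => ?_⟩
  by_cases hv : v < w
  · exact h.2.2 v hv
  · exact OK_of_empty (h.2.1 v (not_lt.1 hv))

variable (f lab)

/-- The poset of stage `w`. -/
def PP (w : W) : Type := {r : Cnd W Ix // PV f lab w r}

/-- The poset. -/
def PT : Type := {p : Cnd W Ix // VV f lab p}

variable {f lab}

instance (w : W) : Preorder (PP f lab w) where
  le a b := CLe f a.1 b.1
  le_refl a := CLe.refl a.1
  le_trans _ _ _ h h' := CLe.trans h h'

instance : Preorder (PT f lab) where
  le a b := CLe f a.1 b.1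
  le_refl a := CLe.refl a.1
  le_trans _ _ _ h h' := CLe.trans h h'

theorem PP.le_def {w : W} {a b : PP f lab w} : a ≤ b ↔ CLe f a.1 b.1 := Iff.rfl

theorem PT.le_def {a b : PT f lab} : a ≤ b ↔ CLe f a.1 b.1 := Iff.rfl

instance : Nonempty (PT f lab) :=
  ⟨⟨fun _ => SC.triv, ⟨by
    have : supp (fun _ : W => (SC.triv : SC Ix)) = ∅ := by
      unfold supp SC.triv
      simp
    rw [this]
    exact Set.finite_empty, fun w => OK_of_empty rfl⟩⟩⟩

/-- The restriction. -/
noncomputable def PT.rs (w : W) (p : PT f lab) : PP f lab w := ⟨res w p.1, PV_res p.2⟩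

variable (f lab)

/-- The names of stage `w`. -/
noncomputable def NN (w : W) : Nm f (PP f lab w) Ix where
  T r i j n := TE f (PV f lab w) (lab w) r.1 i j n
  mono := by
    classical
    intro r r' i j n h a ha
    unfold TE at ha ⊢
    by_cases hG : Gd f (PV f lab w) (lab w)
    · rw [if_pos hG] at ha ⊢
      unfold TT at ha ⊢
      rw [Finset.mem_filter] at ha ⊢
      obtain ⟨ha, c, hc, hrc⟩ := ha
      exact ⟨ha, c, hc, CLe.trans h hrc⟩
    · rw [if_neg hG] at ha
      exact absurd ha (Finset.notMem_empty a)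
  sub := by
    classical
    intro r i j n a ha
    unfold TE at ha
    by_cases hG : Gd f (PV f lab w) (lab w)
    · rw [if_pos hG] at ha
      exact (Finset.mem_filter.1 ha).1
    · rw [if_neg hG] at ha
      exact absurd ha (Finset.notMem_empty a)
  null := by
    classical
    intro i j K r
    by_cases hG : Gd f (PV f lab w) (lab w)
    · obtain ⟨r', hr', hr'r, m, hm⟩ := hG i j K r.1 r.2
      refine ⟨⟨r', hr'⟩, hr'r, m, fun n hn r'' hr'' => ?_⟩
      unfold TE
      rw [if_pos hG]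
      exact hm n hn r''.1 r''.2 hr''
    · refine ⟨r, le_rfl, 0, fun n _ r'' _ => ?_⟩
      unfold TE
      rw [if_neg hG]
      simp

variable {f lab}

theorem OKb_iff {w : W} {r : PP f lab w} {q : SC Ix} :
    OKb f (PV f lab w) (lab w) r.1 q ↔ OKS f (NN f lab w) r q := by
  constructor
  · intro h
    exact ⟨h.v0, fun n hn r' hr' => h.v2 n hn r'.1 r'.2 hr',
      fun i hi j hj hij n hn hc r' hr' => h.v3 i hi j hj hij n hn hc r'.1 r'.2 hr'⟩
  · intro h
    exact ⟨h.v0, fun n hn r' h' hr' => h.v2 n hn ⟨r', h'⟩ hr',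
      fun i hi j hj hij n hn hc r' h' hr' => h.v3 i hi j hj hij n hn hc ⟨r', h'⟩ hr'⟩

theorem OKS_rs (w : W) (p : PT f lab) : OKS f (NN f lab w) (p.rs w) (p.1 w) := by
  rw [← OKb_iff]
  exact (OK_iff f lab w p.1).1 (p.2.2 w)

theorem OKS.mono {Q : Type} [Preorder Q] {N : Nm f Q Ix} {r r' : Q} {q : SC Ix}
    (h : OKS f N r q) (hr : r' ≤ r) : OKS f N r' q :=
  ⟨h.v0, fun n hn s hs => h.v2 n hn s (hs.trans hr),
    fun i hi j hj hij n hn hc s hs => h.v3 i hi j hj hij n hn hc s (hs.trans hr)⟩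

/-- Replace the part of `p` up to `w`. -/
theorem VV_rep {w : W} (p : PT f lab) (r : PP f lab w) (hr : r ≤ p.rs w) (q : SC Ix)
    (hq : OKS f (NN f lab w) r q) (hqp : SLe f q (p.1 w)) : VV f lab (rep w r.1 q p.1) := by
  have hle : CLe f (rep w r.1 q p.1) p.1 := by
    intro v
    rcases lt_trichotomy v w with hv | rfl | hv
    · rw [rep_lt hv]
      have h1 := hr v
      change SLe f (r.1 v) (res w p.1 v) at h1
      rwa [res_of_lt hv] at h1
    · rw [rep_eq]
      exact hqp
    · rw [rep_gt hv]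
      exact SLe.refl _
  refine ⟨?_, fun v => ?_⟩
  · refine ((r.2.1.union p.2.1).union (Set.finite_singleton w)).subset fun v hv => ?_
    rcases lt_trichotomy v w with hvw | rfl | hvw
    · refine Or.inl (Or.inl ?_)
      unfold supp at hv ⊢
      simp only [Set.mem_setOf_eq] at hv ⊢
      rwa [rep_lt hvw] at hv
    · exact Or.inr rfl
    · refine Or.inl (Or.inr ?_)
      unfold supp at hv ⊢
      simp only [Set.mem_setOf_eq] at hv ⊢
      rwa [rep_gt hvw] at hv
  · rcases lt_trichotomy v w with hv | rfl | hv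
    · rw [OK_congr (p := r.1) fun u hu => rep_lt (hu.trans_lt hv) _ _ _]
      exact r.2.2.2 v hv
    · rw [OK_iff, rep_eq]
      have h1 := OKb_iff.2 hq
      refine h1.mono ?_
      intro u
      by_cases hu : u < v
      · rw [res_of_lt hu, rep_lt hu]
        exact SLe.refl _
      · exact SLe.of_empty (r.2.2.1 u (not_lt.1 hu))
    · exact (p.2.2 v).mono (rep_gt hv _ _ _) (res_mono hle)

/-- Replace the part of `p` up to `w`. -/
noncomputable def PT.rep {w : W} (p : PT f lab) (r : PP f lab w) (hr : r ≤ p.rs w) (q : SC Ix)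
    (hq : OKS f (NN f lab w) r q) (hqp : SLe f q (p.1 w)) : PT f lab :=
  ⟨LibMA42.rep w r.1 q p.1, VV_rep p r hr q hq hqp⟩

theorem PT.rep_le {w : W} (p : PT f lab) (r : PP f lab w) (hr : r ≤ p.rs w) (q : SC Ix)
    (hq : OKS f (NN f lab w) r q) (hqp : SLe f q (p.1 w)) : p.rep r hr q hq hqp ≤ p := by
  intro v
  change SLe f (LibMA42.rep w r.1 q p.1 v) (p.1 v)
  rcases lt_trichotomy v w with hv | rfl | hv
  · rw [rep_lt hv]
    have h1 := hr v
    change SLe f (r.1 v) (res w p.1 v) at h1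
    rwa [res_of_lt hv] at h1
  · rw [rep_eq]
    exact hqp
  · rw [rep_gt hv]
    exact SLe.refl _

/-- The condition `r` of stage `w` together with `q` at `w`. -/
theorem VV_put {w : W} (r : PP f lab w) (q : SC Ix) (hq : OKS f (NN f lab w) r q) :
    VV f lab (rep w r.1 q fun _ => SC.triv) := by
  have hr : r ≤ PT.rs w (⟨r.1, r.2.VV⟩ : PT f lab) := by
    intro v
    change SLe f (r.1 v) (res w r.1 v)
    exact le_res w r.1 v
  have h1 := VV_rep (⟨r.1, r.2.VV⟩ : PT f lab) r hr q hq
    (SLe.of_empty (r.2.2.1 w le_rfl))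
  refine ⟨?_, fun v => ?_⟩
  · refine h1.1.subset fun v hv => ?_
    unfold supp at hv ⊢
    simp only [Set.mem_setOf_eq] at hv ⊢
    rcases lt_trichotomy v w with hvw | rfl | hvw
    · rwa [rep_lt hvw] at hv ⊢
    · rwa [rep_eq] at hv ⊢
    · rw [rep_gt hvw] at hv
      exact absurd hv (by simp [SC.triv])
  · rcases lt_trichotomy v w with hv | rfl | hv
    · rw [OK_congr (p := r.1) fun u hu => rep_lt (hu.trans_lt hv) _ _ _]
      exact r.2.2.2 v hv
    · rw [OK_congr (p := LibMA42.rep v r.1 q r.1)]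
      · exact h1.2 v
      · intro u hu
        rcases hu.lt_or_eq with h | rfl
        · rw [rep_lt h, rep_lt h]
        · rw [rep_eq, rep_eq]
    · exact OK_of_empty (by rw [rep_gt hv]; rfl)

end

end Pool.Agent.LibMA42
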