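import Pool.Agent.LibMA42.F8d

/-!
MP_3a91e3_lc, forcing side, task F8c: names are described by stages.
-/

namespace Pool.Agent.LibMA42

open Pool.Agent.LibTk83

variable {W Ix : Type} {f : ℕ → ℕ} [LinearOrder W] [WellFoundedLT W]
  {lab : W → Ix → Ix → ℕ → ℕ → Set (Cnd W Ix)}

theorem F8c_gen_self {P : Type} [Preorder P] (b : RO P) : RO.gen {p : P | p ∈ b} = b := by
  refine RO.ext fun p => ?_
  rw [RO.mem_gen]
  constructor
  · intro h
    refine RO.mem_of_dense fun q hq => ?_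
    obtain ⟨r, hr, s, hs, hrs⟩ := h q hq
    exact ⟨r, hr, RO.mem_of_le hrs hs⟩
  · intro h q hq
    exact ⟨q, le_rfl, q, RO.mem_of_le hq h, le_rfl⟩

theorem F8c_gen_down {P : Type} [Preorder P] (S : Set P) :
    RO.gen {p : P | ∃ s ∈ S, p ≤ s} = RO.gen S := by
  refine RO.ext fun p => ?_
  rw [RO.mem_gen, RO.mem_gen]
  constructor
  · intro h q hq
    obtain ⟨r, hr, s, ⟨t, ht, hst⟩, hrs⟩ := h q hq
    exact ⟨r, hr, t, ht, hrs.trans hst⟩
  · intro h q hq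
    obtain ⟨r, hr, s, hs, hrs⟩ := h q hq
    exact ⟨r, hr, r, ⟨s, hs, hrs⟩, le_rfl⟩

/-- HINT: By `exists_countable_gen` (LibTk83/C2) applied to the set `{p | p ∈ φ i j n a}` choose a countable
subset `S i j n a` with `RO.gen S = φ i j n a` (`RO.gen {p | p ∈ b} = b`). Apply `hcat` to the sets
`C i j n a = Subtype.val '' S i j n a`. -/
theorem exists_Desc (hcat : ∀ C : Ix → Ix → ℕ → ℕ → Set (Cnd W Ix),
      (∀ i j n a, (C i j n a).Countable) → (∀ i j n a, ∀ c ∈ C i j n a, (supp c).Finite) →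
      ∃ w, (∀ i j n a r, (∃ c ∈ lab w i j n a, CLe f r c) ↔ ∃ c ∈ C i j n a, CLe f r c) ∧
        ∀ i j n a, ∀ c ∈ C i j n a, ∀ v, (c v).F.Nonempty → v < w)
    (φ : Ix → Ix → ℕ → ℕ → RO (PT f lab)) : ∃ w, Desc w φ := by
  have h1 : ∀ i j n a, ∃ S : Set (PT f lab), S.Countable ∧ RO.gen S = φ i j n a := by
    intro i j n a
    obtain ⟨S, _, hS, hg⟩ := exists_countable_gen (ccc_PT (f := f) (lab := lab))
      {p : PT f lab | p ∈ φ i j n a}
    exact ⟨S, hS, hg.trans (F8c_gen_self _)⟩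
  choose S hS hg using h1
  obtain ⟨w, hw1, hw2⟩ := hcat (fun i j n a => (Subtype.val : PT f lab → Cnd W Ix) '' S i j n a)
    (fun i j n a => (hS i j n a).image _)
    (by
      rintro i j n a _ ⟨p, _, rfl⟩
      exact p.2.1)
  refine ⟨w, ⟨fun i j n a => ?_, fun i j n a r hr => ?_⟩⟩
  · have h2 : {p : PT f lab | ∃ c ∈ lab w i j n a, CLe f p.1 c} =
        {p : PT f lab | ∃ s ∈ S i j n a, p ≤ s} := by
      ext p
      rw [Set.mem_setOf_eq, hw1 i j n a p.1, Set.mem_setOf_eq]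
      constructor
      · rintro ⟨_, ⟨s, hs, rfl⟩, hps⟩
        exact ⟨s, hs, hps⟩
      · rintro ⟨s, hs, hps⟩
        exact ⟨s.1, ⟨s, hs, rfl⟩, hps⟩
    rw [h2, F8c_gen_down, hg]
  · obtain ⟨c, hc, hrc⟩ := (hw1 i j n a r).1 hr
    refine (hw1 i j n a (res w r)).2 ⟨c, hc, ?_⟩
    refine (res_mono hrc).trans (res_le fun v hv => ?_)
    by_contra hne
    exact absurd (hw2 i j n a c hc v (Finset.nonempty_iff_ne_empty.2 hne)) (not_lt.2 hv)

end Pool.Agent.LibMA42
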