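import Pool.Agent.LibMA42.F6
import Pool.Agent.LibMA42.F8
import Pool.Agent.LibMA42.F9
import Pool.Agent.LibMA42.C1
import Pool.Agent.LibTk83.Q1

/-!
MP_3a91e3_lc, forcing side, task F10: the model.
-/

namespace Pool.Agent.LibMA42

open Pool.Agent.LibTk83

/-- The copy of the family `φ` on the index type `Σ n, KK n`. -/
noncomputable def ext {B : Type} [CompleteBooleanAlgebra B] {k : ℕ}
    (φ : KK k → KK k → ℕ → ℕ → B) (x y : Σ n, KK n) : ℕ → ℕ → B :=
  open Classical in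
  if h : x.1 = k ∧ y.1 = k then φ (h.1 ▸ x.2) (h.2 ▸ y.2) else fun _ _ => ⊥

theorem ext_mk {B : Type} [CompleteBooleanAlgebra B] {k : ℕ}
    (φ : KK k → KK k → ℕ → ℕ → B) (i j : KK k) : ext φ ⟨k, i⟩ ⟨k, j⟩ = φ i j := by
  unfold ext
  rw [dif_pos ⟨rfl, rfl⟩]

theorem ext_NS {B : Type} [CompleteBooleanAlgebra B] {f : ℕ → ℕ} {k : ℕ}
    {φ : KK k → KK k → ℕ → ℕ → B} (h : ∀ i j, NS f (φ i j)) (x y : Σ n, KK n) :
    NS f (ext φ x y) := by
  unfold ext
  split_ifs with hxy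
  · exact h _ _
  · exact NS.bot

theorem exists_model (f : ℕ → ℕ) (hf : StrictMono f) :
    ∃ (B : Type) (_ : CompleteBooleanAlgebra B) (_ : Nontrivial B), Model B f := by
  obtain ⟨W, _, _, lab, w₀, hw₀, hcat⟩ := exists_catalog f (Σ n, KK n)
  refine ⟨RO (PT f lab), inferInstance, inferInstance, ⟨?_, ?_, ?_⟩⟩
  · exact fun J x hx hd => ccc_RO ccc_PT J x hx hd
  · intro k φ hφ
    obtain ⟨w, hw⟩ := exists_Desc (lab := lab) hcat (ext φ)
    refine ⟨fun i => sig w ⟨k, i⟩, fun i => sig_NS w _, fun i j hij => ?_⟩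
    have h1 := hw.star (ext_NS hφ) (i := ⟨k, i⟩) (j := ⟨k, j⟩) (by
      intro h
      apply hij
      have h2 := Sigma.mk.inj_iff.1 h
      exact eq_of_heq h2.2)
    rwa [ext_mk] at h1
  · refine ⟨fun i => sig w₀ ⟨0, i⟩, fun i => sig_NS w₀ _, fun ψ hψ => ?_⟩
    have hI : Uncountable (KK 0) := by
      rw [← Cardinal.aleph0_lt_mk_iff]
      exact Cardinal.aleph0_lt_aleph_one.trans_le (aleph_one_le_II 0)
    exact unbounded hf hw₀ hI (fun i => (⟨0, i⟩ : Σ n, KK n)) (by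
      intro i j h
      exact eq_of_heq (Sigma.mk.inj_iff.1 h).2) ψ hψ

end Pool.Agent.LibMA42
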