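import Pool.Agent.LibMA42.F1

/-!
MP_3a91e3_lc, forcing side, task F2a: preparations for the one stage lemma.
-/

namespace Pool.Agent.LibMA42

variable {Ix : Type} {f : ℕ → ℕ} {Q : Type} [Preorder Q]

/-- A coherent family of local parts. -/
structure SCoh {A : Type} (p : A → SC Ix) : Prop where
  hk : ∀ a b, (p a).h = (p b).h ∧ (p a).k = (p b).k
  s : ∀ a b i, i ∈ (p a).F → i ∈ (p b).F → ∀ n, n < (p a).h → (p a).s i n = (p b).s i n
  c : ∀ a b i j, i ∈ (p a).F → i ∈ (p b).F → j ∈ (p a).F → j ∈ (p b).F →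
    (p a).c i j = (p b).c i j
  delta : ∀ a b i, a ≠ b → i ∈ (p a).F → i ∈ (p b).F → ∀ g, i ∈ (p g).F

theorem F2a_aux (N : Nm f Q Ix) (P : Finset (Ix × Ix)) (K : ℕ) (r : Q) :
    ∃ r', r' ≤ r ∧ ∃ m, ∀ x ∈ P, ∀ n, m ≤ n → ∀ r'', r'' ≤ r' →
      K * (N.T r'' x.1 x.2 n).card ≤ f n := by
  classical
  induction P using Finset.induction_on with
  | empty => exact ⟨r, le_rfl, 0, by simp⟩
  | insert a P _ ih =>
    obtain ⟨r1, hr1, m1, h1⟩ := ih
    obtain ⟨r2, hr2, m2, h2⟩ := N.null a.1 a.2 K r1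
    refine ⟨r2, hr2.trans hr1, max m1 m2, ?_⟩
    intro x hx n hn r'' hr''
    rcases Finset.mem_insert.mp hx with rfl | hx
    · exact h2 n ((le_max_right _ _).trans hn) r'' hr''
    · exact h1 x hx n ((le_max_left _ _).trans hn) r'' (hr''.trans hr2)

/-- HINT: by `N.null` and induction on a finite set of pairs: for each finite `P ⊆ Ix × Ix` and each
`K` there are `r' ≤ r` and `m` with `K * (N.T r'' x.1 x.2 n).card ≤ f n` for all `x ∈ P`, `n ≥ m`,
`r'' ≤ r'`. Apply it with `P = F.offDiag` and `K = k * (P.card)`, and `Finset.card_biUnion_le`: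
`k * card (UT ..) ≤ ∑ x ∈ P, k * card (T x)`; if `P` is empty it is `0`; otherwise multiply with `P.card`
and cancel. -/
theorem roomy (N : Nm f Q Ix) (r : Q) (F : Finset Ix) (k M0 : ℕ) :
    ∃ r', r' ≤ r ∧ ∃ M, M0 ≤ M ∧ ∀ n, M ≤ n → ∀ r'', r'' ≤ r' →
      k * (UT (N.T r'') F n).card ≤ f n := by
  classical
  obtain ⟨r', hr', m, h⟩ := F2a_aux N F.offDiag (k * F.offDiag.card) r
  refine ⟨r', hr', max M0 m, le_max_left _ _, ?_⟩
  intro n hn r'' hr''
  have hc : (UT (N.T r'') F n).card ≤ ∑ x ∈ F.offDiag, (N.T r'' x.1 x.2 n).card := by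
    unfold UT
    exact Finset.card_biUnion_le
  rcases Nat.eq_zero_or_pos F.offDiag.card with h0 | hpos
  · have hP : F.offDiag = ∅ := Finset.card_eq_zero.mp h0
    rw [hP, Finset.sum_empty] at hc
    have : (UT (N.T r'') F n).card = 0 := by omega
    rw [this]
    simp
  · refine Nat.le_of_mul_le_mul_left ?_ hpos
    calc F.offDiag.card * (k * (UT (N.T r'') F n).card)
        ≤ F.offDiag.card * (k * ∑ x ∈ F.offDiag, (N.T r'' x.1 x.2 n).card) :=
          Nat.mul_le_mul_left _ (Nat.mul_le_mul_left _ hc)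
      _ = ∑ x ∈ F.offDiag, (k * F.offDiag.card) * (N.T r'' x.1 x.2 n).card := by
          rw [← Finset.mul_sum]; ring
      _ ≤ ∑ x ∈ F.offDiag, f n :=
          Finset.sum_le_sum fun x hx => h x hx n ((le_max_right _ _).trans hn) r'' hr''
      _ = F.offDiag.card * f n := by rw [Finset.sum_const, smul_eq_mul]

/-- HINT: among the `r' ≤ r` choose one with the largest value of
`∑ i ∈ F, ∑ j ∈ F, ∑ n ∈ range M, (N.T r' i j n).card` (bounded by `N.sub`; `Nat.find` on the
difference, or `Set.exists_max_image`-like argument for bounded sets of naturals,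
`Nat.sSup_mem`, `BddAbove`); for `r'' ≤ r'` the sets get larger (`N.mono`) and the sum does not, so
they are equal (`Finset.eq_of_subset_of_card_le`, `Finset.sum_eq_sum_iff_of_le`). -/
theorem decide (N : Nm f Q Ix) (r : Q) (F : Finset Ix) (M : ℕ) :
    ∃ r', r' ≤ r ∧ ∀ r'', r'' ≤ r' → ∀ i ∈ F, ∀ j ∈ F, ∀ n, n < M →
      N.T r'' i j n = N.T r' i j n := by
  classical
  set S : Q → ℕ := fun r' => ∑ i ∈ F, ∑ j ∈ F, ∑ n ∈ Finset.range M, (N.T r' i j n).card with hS
  set B : ℕ := ∑ _i ∈ F, ∑ _j ∈ F, ∑ n ∈ Finset.range M, f n with hB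
  have hSB : ∀ r', S r' ≤ B := by
    intro r'
    refine Finset.sum_le_sum fun i _ => Finset.sum_le_sum fun j _ => Finset.sum_le_sum fun n _ => ?_
    have := Finset.card_le_card (N.sub r' i j n)
    rwa [Finset.card_range] at this
  let wf := (measure fun r' : Q => B - S r').wf
  have hne : ({r' : Q | r' ≤ r}).Nonempty := ⟨r, le_rfl⟩
  set r0 := wf.min {r' : Q | r' ≤ r} hne with hr0
  have hr0m : r0 ≤ r := wf.min_mem {r' : Q | r' ≤ r} hne
  refine ⟨r0, hr0m, ?_⟩
  intro r'' hr'' i hi j hj n hn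
  have hmin : ¬ (B - S r'' < B - S r0) :=
    wf.not_lt_min {r' : Q | r' ≤ r} (show r'' ≤ r from hr''.trans hr0m)
  have hle : ∀ i j n, (N.T r0 i j n).card ≤ (N.T r'' i j n).card := fun i j n =>
    Finset.card_le_card (N.mono _ _ i j n hr'')
  have hmono : S r0 ≤ S r'' :=
    Finset.sum_le_sum fun i _ => Finset.sum_le_sum fun j _ => Finset.sum_le_sum fun n _ => hle i j n
  have heq : S r0 = S r'' := by
    have h1 := hSB r0
    have h2 := hSB r''
    omega
  have e1 := (Finset.sum_eq_sum_iff_of_le (fun i _ => Finset.sum_le_sum fun j _ =>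
    Finset.sum_le_sum fun n _ => hle i j n)).mp heq i hi
  have e2 := (Finset.sum_eq_sum_iff_of_le (fun j _ =>
    Finset.sum_le_sum fun n _ => hle i j n)).mp e1 j hj
  have e3 := (Finset.sum_eq_sum_iff_of_le (fun n _ => hle i j n)).mp e2 n (Finset.mem_range.mpr hn)
  exact (Finset.eq_of_subset_of_card_le (N.mono _ _ i j n hr'') e3.ge).symm

end Pool.Agent.LibMA42
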