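import Pool.Agent.LibMA42.F2a

/-!
MP_3a91e3_lc, forcing side, task F2b: the one stage lemma.
-/

namespace Pool.Agent.LibMA42

variable {Ix : Type} {f : ℕ → ℕ} {Q : Type} [Preorder Q]

private theorem F2b_UT_mono (T : Ix → Ix → ℕ → Finset ℕ) {F G : Finset Ix} (h : F ⊆ G) (n : ℕ) :
    UT T F n ⊆ UT T G n := by
  classical
  intro a ha
  unfold UT at ha ⊢
  rw [Finset.mem_biUnion] at ha ⊢
  obtain ⟨x, hx, hax⟩ := ha
  rw [Finset.mem_offDiag] at hx
  exact ⟨x, Finset.mem_offDiag.2 ⟨h hx.1, h hx.2.1, hx.2.2⟩, hax⟩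

private theorem F2b_sub_UT (T : Ix → Ix → ℕ → Finset ℕ) {F : Finset Ix} {i j : Ix} (hi : i ∈ F)
    (hj : j ∈ F) (hij : i ≠ j) (n : ℕ) : T i j n ⊆ UT T F n := by
  classical
  intro a ha
  unfold UT
  rw [Finset.mem_biUnion]
  exact ⟨(i, j), Finset.mem_offDiag.2 ⟨hi, hj, hij⟩, ha⟩

private theorem F2b_UT_sub (N : Nm f Q Ix) (r : Q) (F : Finset Ix) (n : ℕ) :
    UT (N.T r) F n ⊆ Finset.range (f n) := by
  classical
  intro a ha
  unfold UT at ha
  rw [Finset.mem_biUnion] at ha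
  obtain ⟨x, _, hax⟩ := ha
  exact N.sub _ _ _ _ hax

/-- HINT. Let `h`, `k` be the common values of the `(p a).h`, `(p a).k`, `k₂ = max k k'`. By `roomy`
(with `2 * k₂`, `M0 = max h h'`) get `r₁ ≤ r`, `M`; by `decide` get `r' ≤ r₁`. Define (classical)
`G i = F'.filter (fun j => ∀ a, i ∈ (p a).F → j ∈ (p a).F)`, and the local part `q`: `q.F = F'`,
`q.h = M`, `q.k = k₂`; for `n < h`: `q.s i n = (p a).s i n` if `i ∈ (p a).F` for some `a` (choice), else
`∅`; for `h ≤ n`: `q.s i n = UT (N.T r') (G i) n` if `i ∈ (p a).F` for some `a`, else `∅`;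
`q.c i j = (p a).c i j` if `i, j ∈ (p a).F` for some `a`, else `M`.
* `v0`: `(hok a).v0` and `N.sub`.
* `v2`: `roomy`.
* `v3` for `i ≠ j`, `n < M`, `q.c i j ≤ n`, `r'' ≤ r'`: then `i, j ∈ (p a).F` for some `a` (else
  `q.c i j = M > n`) and `q.c i j = (p a).c i j` (`hp.c`). If `n < h`: `(hok a).v3`, `hp.s`. If `h ≤ n`:
  `N.T r'' i j n = N.T r' i j n ⊆ UT (N.T r') (G i) n` if `j ∈ G i`, and similarly `i ∈ G j`. One of
  these is true: if not, there are `b` with `i ∈ (p b).F`, `j ∉ (p b).F` and `b'` with `j ∈ (p b').F`,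
  `i ∉ (p b').F`; so `b ≠ a`, and `hp.delta a b i` gives `i ∈ (p b').F`, contradiction.
* `SLe f q (p a)`: `(2 * k) * card (UT (N.T r') (G i) n) ≤ f n` for `h ≤ n` because `G i ⊆ (p a).F` for
  `i ∈ (p a).F` and `(hok a).v2` (monotonicity of `UT` in `F`). -/
theorem one_stage (N : Nm f Q Ix) {A : Type} [Finite A] [Nonempty A] (p : A → SC Ix)
    (hp : SCoh p) (r : Q) (hok : ∀ a, OKS f N r (p a)) (F' : Finset Ix) (hF : ∀ a, (p a).F ⊆ F')
    (h' k' : ℕ) :
    ∃ r', r' ≤ r ∧ ∃ q : SC Ix, OKS f N r' q ∧ q.F = F' ∧ h' ≤ q.h ∧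
      (∀ a, q.k = max (p a).k k') ∧ ∀ a, SLe f q (p a) := by
  classical
  obtain ⟨a0⟩ := (inferInstance : Nonempty A)
  set h : ℕ := (p a0).h with hh
  set k : ℕ := (p a0).k with hkk
  have hh' : ∀ a, (p a).h = h := fun a => (hp.hk a a0).1
  have hk' : ∀ a, (p a).k = k := fun a => (hp.hk a a0).2
  obtain ⟨r₁, hr₁, M, hM, hroom⟩ := roomy N r F' (2 * max k k') (max h h')
  obtain ⟨r', hr', hdec⟩ := decide N r₁ F' M
  have hr'r : r' ≤ r := hr'.trans hr₁
  let G : Ix → Finset Ix := fun i => F'.filter (fun j => ∀ a, i ∈ (p a).F → j ∈ (p a).F)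
  let qs : Ix → ℕ → Finset ℕ := fun i n =>
    if hi : ∃ a, i ∈ (p a).F then
      (if n < h then (p hi.choose).s i n else UT (N.T r') (G i) n) else ∅
  let qc : Ix → Ix → ℕ := fun i j =>
    if hij : ∃ a, i ∈ (p a).F ∧ j ∈ (p a).F then (p hij.choose).c i j else M
  have hqs1 : ∀ a i, i ∈ (p a).F → ∀ n, n < h → qs i n = (p a).s i n := by
    intro a i hi n hn
    have hex : ∃ a, i ∈ (p a).F := ⟨a, hi⟩
    change (if hi : ∃ a, i ∈ (p a).F then
      (if n < h then (p hi.choose).s i n else UT (N.T r') (G i) n) else ∅) = _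
    rw [dif_pos hex, if_pos hn]
    exact hp.s hex.choose a i hex.choose_spec hi n (by rw [hh']; exact hn)
  have hqs2 : ∀ a i, i ∈ (p a).F → ∀ n, h ≤ n → qs i n = UT (N.T r') (G i) n := by
    intro a i hi n hn
    have hex : ∃ a, i ∈ (p a).F := ⟨a, hi⟩
    change (if hi : ∃ a, i ∈ (p a).F then
      (if n < h then (p hi.choose).s i n else UT (N.T r') (G i) n) else ∅) = _
    rw [dif_pos hex, if_neg (not_lt.2 hn)]
  have hqs3 : ∀ i, (¬ ∃ a, i ∈ (p a).F) → ∀ n, qs i n = ∅ := by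
    intro i hi n
    change (if hi : ∃ a, i ∈ (p a).F then
      (if n < h then (p hi.choose).s i n else UT (N.T r') (G i) n) else ∅) = _
    rw [dif_neg hi]
  have hqc1 : ∀ a i j, i ∈ (p a).F → j ∈ (p a).F → qc i j = (p a).c i j := by
    intro a i j hi hj
    have hex : ∃ a, i ∈ (p a).F ∧ j ∈ (p a).F := ⟨a, hi, hj⟩
    change (if hij : ∃ a, i ∈ (p a).F ∧ j ∈ (p a).F then (p hij.choose).c i j else M) = _
    rw [dif_pos hex]
    exact hp.c hex.choose a i j hex.choose_spec.1 hi hex.choose_spec.2 hj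
  have hqc2 : ∀ i j, (¬ ∃ a, i ∈ (p a).F ∧ j ∈ (p a).F) → qc i j = M := by
    intro i j hij
    change (if hij : ∃ a, i ∈ (p a).F ∧ j ∈ (p a).F then (p hij.choose).c i j else M) = _
    rw [dif_neg hij]
  have hGsub : ∀ a i, i ∈ (p a).F → G i ⊆ (p a).F := by
    intro a i hi j hj
    exact (Finset.mem_filter.1 hj).2 a hi
  have hGself : ∀ i ∈ F', i ∈ G i := fun i hi => Finset.mem_filter.2 ⟨hi, fun _ h => h⟩
  have hMh : h ≤ M := (le_max_left _ _).trans hM
  refine ⟨r', hr'r, ⟨F', M, max k k', qs, qc⟩, ⟨?_, ?_, ?_⟩, rfl, (le_max_right _ _).trans hM,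
    fun a => by rw [hk' a], fun a i hi => ?_⟩
  · -- v0
    intro i _ n _
    change qs i n ⊆ Finset.range (f n)
    by_cases hex : ∃ a, i ∈ (p a).F
    · obtain ⟨a, ha⟩ := hex
      rcases lt_or_ge n h with hn | hn
      · rw [hqs1 a i ha n hn]
        exact (hok a).v0 i ha n (by rw [hh']; exact hn)
      · rw [hqs2 a i ha n hn]
        exact F2b_UT_sub N r' _ n
    · rw [hqs3 i hex n]
      exact Finset.empty_subset _
  · -- v2
    intro n hn r'' hr''
    exact hroom n hn r'' (hr''.trans hr')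
  · -- v3
    intro i hi j hj hij n hn hc r'' hr''
    change i ∈ F' at hi
    change j ∈ F' at hj
    change n < M at hn
    change qc i j ≤ n at hc
    change N.T r'' i j n ⊆ qs i n ∪ qs j n
    have hex : ∃ a, i ∈ (p a).F ∧ j ∈ (p a).F := by
      by_contra hcon
      rw [hqc2 i j hcon] at hc
      exact absurd hc (not_le.2 hn)
    obtain ⟨a, hia, hja⟩ := hex
    rcases lt_or_ge n h with hnh | hnh
    · rw [hqs1 a i hia n hnh, hqs1 a j hja n hnh]
      rw [hqc1 a i j hia hja] at hc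
      exact (hok a).v3 i hia j hja hij n (by rw [hh']; exact hnh) hc r'' (hr''.trans hr'r)
    · rw [hqs2 a i hia n hnh, hqs2 a j hja n hnh, hdec r'' hr'' i hi j hj n hn]
      have hcl : j ∈ G i ∨ i ∈ G j := by
        by_contra hcon
        rw [not_or] at hcon
        obtain ⟨h1, h2⟩ := hcon
        have h1' : ∃ b, i ∈ (p b).F ∧ j ∉ (p b).F := by
          by_contra h3
          refine h1 (Finset.mem_filter.2 ⟨hj, fun b hb => ?_⟩)
          by_contra h4
          exact h3 ⟨b, hb, h4⟩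
        have h2' : ∃ b, j ∈ (p b).F ∧ i ∉ (p b).F := by
          by_contra h3
          refine h2 (Finset.mem_filter.2 ⟨hi, fun b hb => ?_⟩)
          by_contra h4
          exact h3 ⟨b, hb, h4⟩
        obtain ⟨b, hib, hjb⟩ := h1'
        obtain ⟨b', hjb', hib'⟩ := h2'
        have hab : a ≠ b := by
          rintro rfl
          exact hjb hja
        exact hib' (hp.delta a b i hab hia hib b')
      rcases hcl with hcl | hcl
      · exact (F2b_sub_UT (N.T r') (hGself i hi) hcl hij n).trans Finset.subset_union_left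
      · exact (F2b_sub_UT (N.T r') hcl (hGself j hj) hij n).trans Finset.subset_union_right
  · -- SLe
    refine ⟨hF a hi, ?_, ?_, ?_, ?_, ?_⟩
    · change (p a).h ≤ M
      rw [hh']
      exact hMh
    · change (p a).k ≤ max k k'
      rw [hk']
      exact le_max_left _ _
    · intro n hn
      rw [hh'] at hn
      exact hqs1 a i hi n hn
    · intro n hn _
      rw [hh'] at hn
      change (p a).k * (qs i n).card ≤ f n
      rw [hqs2 a i hi n hn]
      have h1 : (UT (N.T r') (G i) n).card ≤ (UT (N.T r') (p a).F n).card :=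
        Finset.card_le_card (F2b_UT_mono _ (hGsub a i hi) n)
      have h2 := (hok a).v2 n (by rw [hh']; exact hn) r' hr'r
      calc (p a).k * (UT (N.T r') (G i) n).card
          ≤ (p a).k * (UT (N.T r') (p a).F n).card := Nat.mul_le_mul_left _ h1
        _ ≤ 2 * (p a).k * (UT (N.T r') (p a).F n).card := by
            rw [mul_assoc]; exact Nat.le_mul_of_pos_left _ (by norm_num)
        _ ≤ f n := h2
    · intro j hj
      exact hqc1 a i j hi hj

end Pool.Agent.LibMA42
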