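import Pool.Agent.LibMA42.F2

/-!
MP_3a91e3_lc, forcing side, task F3a: density.
-/

namespace Pool.Agent.LibMA42

variable {W Ix : Type} {f : ℕ → ℕ}

/-- A coherent family of conditions. -/
structure Coh {A : Type} (p : A → Cnd W Ix) : Prop where
  hk : ∀ a b w, (p a w).F.Nonempty → (p b w).F.Nonempty →
    (p a w).h = (p b w).h ∧ (p a w).k = (p b w).k
  s : ∀ a b w i, i ∈ (p a w).F → i ∈ (p b w).F → ∀ n, n < (p a w).h →
    (p a w).s i n = (p b w).s i n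
  c : ∀ a b w i j, i ∈ (p a w).F → i ∈ (p b w).F → j ∈ (p a w).F → j ∈ (p b w).F →
    (p a w).c i j = (p b w).c i j
  delta : ∀ a b w i, a ≠ b → i ∈ (p a w).F → i ∈ (p b w).F → ∀ g, (p g w).F.Nonempty →
    i ∈ (p g w).F

variable [LinearOrder W] [WellFoundedLT W] {lab : W → Ix → Ix → ℕ → ℕ → Set (Cnd W Ix)}

open Classical in
/-- HINT: `one_stage` for `NN f lab w`, `A = Unit`, `p.1 w`, `p.rs w`, `F' = insert i (p.1 w).F`; `PT.rep`. -/
theorem dense_stage (p : PT f lab) (w : W) (i : Ix) (h' k' : ℕ) :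
    ∃ q, q ≤ p ∧ (q.1 w).F = insert i (p.1 w).F ∧ h' ≤ (q.1 w).h ∧
      (q.1 w).k = max (p.1 w).k k' := by
  obtain ⟨r', hr', q, hq, hqF, hh, hk, hle⟩ := one_stage (NN f lab w) (fun _ : Unit => p.1 w)
    ⟨fun _ _ => ⟨rfl, rfl⟩, fun _ _ _ _ _ _ _ => rfl, fun _ _ _ _ _ _ _ _ => rfl,
      fun a b _ hab => absurd (Subsingleton.elim a b) hab⟩
    (p.rs w) (fun _ => OKS_rs w p) (insert i (p.1 w).F) (fun _ => Finset.subset_insert _ _) h' k'
  have hw : (p.rep r' hr' q hq (hle ())).1 w = q := rep_eq w _ _ _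
  refine ⟨p.rep r' hr' q hq (hle ()), p.rep_le r' hr' q hq (hle ()), ?_, ?_, ?_⟩
  · rw [hw]
    exact hqF
  · rw [hw]
    exact hh
  · rw [hw]
    exact hk ()

end Pool.Agent.LibMA42
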