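import Pool.Agent.LibMA42.F3a

/-!
MP_3a91e3_lc, forcing side, task F3b: amalgamation.
-/

namespace Pool.Agent.LibMA42

variable {W Ix : Type} {f : ℕ → ℕ} [LinearOrder W] [WellFoundedLT W]
  {lab : W → Ix → Ix → ℕ → ℕ → Set (Cnd W Ix)}

private theorem F3b_coh_res {A : Type} {p : A → Cnd W Ix} (hp : Coh p) (w : W) :
    Coh fun a => res w (p a) := by
  have hF : ∀ a v i, i ∈ (res w (p a) v).F → v < w := by
    intro a v i hi
    by_contra hv
    rw [res_of_le (not_lt.1 hv)] at hi
    exact absurd hi (Finset.notMem_empty i)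
  refine ⟨?_, ?_, ?_, ?_⟩
  · intro a b v ha hb
    obtain ⟨i, hi⟩ := ha
    have hv := hF a v i hi
    obtain ⟨j, hj⟩ := hb
    simp only [res_of_lt hv] at hi hj ⊢
    exact hp.hk a b v ⟨i, hi⟩ ⟨j, hj⟩
  · intro a b v i ha hb n hn
    have hv := hF a v i ha
    simp only [res_of_lt hv] at ha hb hn ⊢
    exact hp.s a b v i ha hb n hn
  · intro a b v i j hia hib hja hjb
    have hv := hF a v i hia
    simp only [res_of_lt hv] at hia hib hja hjb ⊢
    exact hp.c a b v i j hia hib hja hjb
  · intro a b v i hab hia hib g hg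
    have hv := hF a v i hia
    simp only [res_of_lt hv] at hia hib hg ⊢
    exact hp.delta a b v i hab hia hib g hg

private theorem F3b_aux {A : Type} [Finite A] (n : ℕ) : ∀ (p : A → PT f lab),
    Coh (fun a => (p a).1) → (⋃ a, supp (p a).1).ncard ≤ n → ∃ q : PT f lab, ∀ a, q ≤ p a := by
  classical
  induction n with
  | zero =>
    intro p _ hn
    have hfin : (⋃ a, supp (p a).1).Finite := Set.finite_iUnion fun a => (p a).2.1
    have hempty : (⋃ a, supp (p a).1) = ∅ := by
      rw [← Set.ncard_eq_zero hfin]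
      exact Nat.le_zero.1 hn
    obtain ⟨q⟩ := (inferInstance : Nonempty (PT f lab))
    refine ⟨q, fun a v => SLe.of_empty ?_⟩
    by_contra hF
    have h1 : v ∈ ⋃ a, supp (p a).1 := Set.mem_iUnion.2 ⟨a, Finset.nonempty_iff_ne_empty.2 hF⟩
    rw [hempty] at h1
    exact h1
  | succ n ih =>
    intro p hp hn
    have hfin : (⋃ a, supp (p a).1).Finite := Set.finite_iUnion fun a => (p a).2.1
    by_cases hempty : (⋃ a, supp (p a).1) = ∅
    · obtain ⟨q⟩ := (inferInstance : Nonempty (PT f lab))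
      refine ⟨q, fun a v => SLe.of_empty ?_⟩
      by_contra hF
      have h1 : v ∈ ⋃ a, supp (p a).1 := Set.mem_iUnion.2 ⟨a, Finset.nonempty_iff_ne_empty.2 hF⟩
      rw [hempty] at h1
      exact h1
    have hne : (⋃ a, supp (p a).1).Nonempty := Set.nonempty_iff_ne_empty.2 hempty
    obtain ⟨w, hwS, hwmax⟩ : ∃ w ∈ ⋃ a, supp (p a).1, ∀ v ∈ ⋃ a, supp (p a).1, v ≤ w := by
      have hne' : hfin.toFinset.Nonempty := by
        rw [Set.Finite.toFinset_nonempty]
        exact hne
      refine ⟨hfin.toFinset.max' hne', ?_, fun v hv => ?_⟩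
      · exact (Set.Finite.mem_toFinset hfin).1 (Finset.max'_mem _ hne')
      · exact Finset.le_max' _ _ ((Set.Finite.mem_toFinset hfin).2 hv)
    let p' : A → PT f lab := fun a => ⟨res w (p a).1, (PV_res (p a).2).VV⟩
    have hp' : Coh fun a => (p' a).1 := F3b_coh_res hp w
    have hsub : (⋃ a, supp (p' a).1) ⊂ ⋃ a, supp (p a).1 := by
      refine (Set.ssubset_iff_of_subset ?_).2 ⟨w, hwS, ?_⟩
      · intro v hv
        obtain ⟨a, ha⟩ := Set.mem_iUnion.1 hv
        have h1 : v ∈ supp (res w (p a).1) := ha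
        rw [supp_res] at h1
        exact Set.mem_iUnion.2 ⟨a, h1.1⟩
      · intro hv
        obtain ⟨a, ha⟩ := Set.mem_iUnion.1 hv
        have h1 : w ∈ supp (res w (p a).1) := ha
        rw [supp_res] at h1
        exact lt_irrefl w h1.2
    have hcard : (⋃ a, supp (p' a).1).ncard ≤ n := by
      have := Set.ncard_lt_ncard hsub hfin
      omega
    obtain ⟨q₀, hq₀⟩ := ih p' hp' hcard
    have hrs : ∀ a, q₀.rs w ≤ (p a).rs w := by
      intro a
      have h1 : CLe f (res w q₀.1) (res w (res w (p a).1)) := res_mono (hq₀ a)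
      rw [res_res le_rfl] at h1
      exact h1
    let A₁ : Type := {a : A // ((p a).1 w).F.Nonempty}
    have hA₁ : Nonempty A₁ := by
      obtain ⟨a, ha⟩ := Set.mem_iUnion.1 hwS
      exact ⟨⟨a, ha⟩⟩
    haveI hfA : Finite A₁ := Subtype.finite
    haveI : Fintype A₁ := Fintype.ofFinite A₁
    have hSC : SCoh fun a : A₁ => (p a.1).1 w :=
      ⟨fun a b => hp.hk a.1 b.1 w a.2 b.2, fun a b i => hp.s a.1 b.1 w i,
        fun a b i j => hp.c a.1 b.1 w i j,
        fun a b i hab hia hib g => hp.delta a.1 b.1 w i (fun h => hab (Subtype.ext h)) hia hib g.1 g.2⟩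
    obtain ⟨r', hr', q, hq, _, _, _, hle⟩ := one_stage (NN f lab w) (fun a : A₁ => (p a.1).1 w) hSC
      (q₀.rs w) (fun a => (OKS_rs w (p a.1)).mono (hrs a.1))
      (Finset.univ.biUnion fun a : A₁ => ((p a.1).1 w).F)
      (fun a => Finset.subset_biUnion_of_mem (fun a : A₁ => ((p a.1).1 w).F) (Finset.mem_univ a))
      0 0
    refine ⟨⟨rep w r'.1 q fun _ => SC.triv, VV_put r' q hq⟩, fun a v => ?_⟩
    change SLe f (rep w r'.1 q (fun _ => SC.triv) v) ((p a).1 v)
    rcases lt_trichotomy v w with hv | rfl | hv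
    · rw [rep_lt hv]
      have h1 : SLe f (r'.1 v) (res w q₀.1 v) := hr' v
      have h2 : SLe f (q₀.1 v) (res w (p a).1 v) := hq₀ a v
      rw [res_of_lt hv] at h1 h2
      exact h1.trans h2
    · rw [rep_eq]
      by_cases hF : ((p a).1 v).F.Nonempty
      · exact hle ⟨a, hF⟩
      · exact SLe.of_empty (Finset.not_nonempty_iff_eq_empty.1 hF)
    · rw [rep_gt hv]
      refine SLe.of_empty ?_
      by_contra hF
      have h1 : v ∈ ⋃ a, supp (p a).1 := Set.mem_iUnion.2 ⟨a, Finset.nonempty_iff_ne_empty.2 hF⟩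
      exact absurd (hwmax v h1) (not_le.2 hv)

/-- HINT: Induction on the cardinality of the finite set `S = ⋃ a, supp (p a).1` (generalize `p`). If
`S = ∅`, take any condition (`CLe` is trivial, `SLe.of_empty`). Otherwise let `w` be the largest element
of `S` (`Set.Finite.toFinset.max'` or `Set.Finite.exists_maximal..`). The conditions
`⟨res w (p a).1, _⟩` (`PV_res`, `PV.VV`) are coherent with smaller support (`supp_res`); so they have a
lower bound `q₀`. Apply `one_stage` to the family of the `(p a).1 w`, `a ∈ A₁ = {a | (p a).1 w ≠ ∅}` (a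
subtype; nonempty and finite), over `r = q₀.rs w` (`OKS_rs w (p a)` and `OKS.mono`: `q₀.rs w ≤ (p a).rs w`),
`F' = ⋃ a, (p a w).F`; get `r'`, `q`; the lower bound is `rep w r' q (fun _ => SC.triv)` (`VV_put`):
above `w` all the `p a` are empty (`SLe.of_empty`). -/
theorem amalg {A : Type} [Finite A] (p : A → PT f lab) (hp : Coh fun a => (p a).1) :
    ∃ q : PT f lab, ∀ a, q ≤ p a := F3b_aux _ p hp le_rfl

end Pool.Agent.LibMA42
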