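import Mathlib

/-!
MP_3a91e3_lc, forcing side, task F4a: the delta system lemma.
-/

namespace Pool.Agent.LibMA42

theorem F4a_disj {J X : Type} (E : J → Set X) (S : Set J) (hS : ¬ S.Countable)
    (hE : ∀ j ∈ S, (E j).Finite) (hA : ∀ x, {j ∈ S | x ∈ E j}.Countable) :
    ∃ S' ⊆ S, ¬ S'.Countable ∧ ∀ a ∈ S', ∀ b ∈ S', a ≠ b → E a ∩ E b = ∅ := by
  obtain ⟨S', hmax⟩ := zorn_subset {T : Set J | T ⊆ S ∧ T.Pairwise fun a b => E a ∩ E b = ∅}
    (fun c hc hchain => by
      refine ⟨⋃₀ c, ⟨Set.sUnion_subset fun T hT => (hc hT).1, ?_⟩,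
        fun T hT => Set.subset_sUnion_of_mem hT⟩
      exact (Set.pairwise_sUnion hchain.directedOn).mpr fun T hT => (hc hT).2)
  refine ⟨S', hmax.prop.1, fun hcount => ?_, fun a ha b hb hab => hmax.prop.2 ha hb hab⟩
  have h1 : (⋃ j ∈ S', E j).Countable :=
    hcount.biUnion fun j hj => (hE j (hmax.prop.1 hj)).countable
  have h2 : (⋃ x ∈ ⋃ j ∈ S', E j, {j ∈ S | x ∈ E j}).Countable := h1.biUnion fun x _ => hA x
  have hex : ∃ j ∈ S, j ∉ (⋃ x ∈ ⋃ j ∈ S', E j, {j ∈ S | x ∈ E j}) ∪ S' := by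
    by_contra hcon
    push Not at hcon
    exact hS ((h2.union hcount).mono hcon)
  obtain ⟨j, hj, hjn⟩ := hex
  have hdis : ∀ a ∈ S', E j ∩ E a = ∅ := by
    intro a ha
    ext x
    simp only [Set.mem_inter_iff, Set.mem_empty_iff_false, iff_false, not_and]
    intro hxj hxa
    exact hjn (Or.inl (Set.mem_biUnion (Set.mem_biUnion ha hxa) ⟨hj, hxj⟩))
  have hins : insert j S' ∈ {T : Set J | T ⊆ S ∧ T.Pairwise fun a b => E a ∩ E b = ∅} := by
    refine ⟨Set.insert_subset hj hmax.prop.1, ?_⟩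
    refine hmax.prop.2.insert fun a ha _ => ⟨hdis a ha, ?_⟩
    rw [Set.inter_comm]
    exact hdis a ha
  have h3 := hmax.le_of_ge hins (Set.subset_insert j S')
  exact hjn (Or.inr (h3 (Set.mem_insert j S')))

theorem F4a_aux {J X : Type} (n : ℕ) :
    ∀ (E : J → Set X) (S : Set J), ¬ S.Countable →
      (∀ j ∈ S, (E j).Finite ∧ (E j).ncard = n) →
      ∃ S' ⊆ S, ¬ S'.Countable ∧ ∃ R : Set X, ∀ a ∈ S', ∀ b ∈ S', a ≠ b → E a ∩ E b = R := by
  induction n with
  | zero =>
    intro E S hS hE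
    refine ⟨S, subset_rfl, hS, ∅, fun a ha b _ _ => ?_⟩
    have h0 : E a = ∅ := (Set.ncard_eq_zero (hE a ha).1).mp (hE a ha).2
    rw [h0, Set.empty_inter]
  | succ n ih =>
    intro E S hS hE
    by_cases hA : ∃ x, ¬ {j ∈ S | x ∈ E j}.Countable
    · obtain ⟨x, hx⟩ := hA
      obtain ⟨S', hS', hc, R, hR⟩ := ih (fun j => E j \ {x}) {j ∈ S | x ∈ E j} hx (fun j hj => by
        refine ⟨(hE j hj.1).1.subset Set.sdiff_subset, ?_⟩
        have h1 := Set.ncard_sdiff_singleton_of_mem hj.2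
        rw [h1, (hE j hj.1).2]
        rfl)
      refine ⟨S', fun j hj => (hS' hj).1, hc, insert x R, fun a ha b hb hab => ?_⟩
      rw [← hR a ha b hb hab]
      ext y
      simp only [Set.mem_inter_iff, Set.mem_insert_iff, Set.mem_sdiff, Set.mem_singleton_iff]
      by_cases hy : y = x
      · subst hy
        simp [(hS' ha).2, (hS' hb).2]
      · simp [hy]
    · push Not at hA
      obtain ⟨S', h1, h2, h3⟩ := F4a_disj E S hS (fun j hj => (hE j hj).1) hA
      exact ⟨S', h1, h2, ∅, h3⟩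

/-- The delta system lemma. HINT: some cardinality `n` of `E j` occurs for uncountably many `j`; prove by
induction on `n` for families on an arbitrary uncountable set `S` of indices (generalize `S` and `E`): if
some `x` is in `E j` for uncountably many `j ∈ S`, apply the induction hypothesis to `E j \ {x}` on these
`j`. Otherwise take (`zorn_subset`) a maximal `S' ⊆ S` such that the `E j`, `j ∈ S'`, are pairwise
disjoint; if `S'` were countable, then `⋃ j ∈ S', E j` is countable, so only countably many `j ∈ S`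
have `E j` meeting it, and there is `j ∈ S` outside (and outside of `S'`), a contradiction; `R = ∅`.
(Compare LibTk83/C1.lean.) -/
theorem delta_system {J X : Type} (S : Set J) (hS : ¬ S.Countable) (E : J → Set X)
    (hE : ∀ j, (E j).Finite) :
    ∃ S' ⊆ S, ¬ S'.Countable ∧ ∃ R : Set X, ∀ a ∈ S', ∀ b ∈ S', a ≠ b → E a ∩ E b = R := by
  have hex : ∃ n : ℕ, ¬ {j ∈ S | (E j).ncard = n}.Countable := by
    by_contra hcon
    push Not at hcon
    apply hS
    refine (Set.countable_iUnion hcon).mono ?_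
    intro j hj
    exact Set.mem_iUnion.mpr ⟨(E j).ncard, hj, rfl⟩
  obtain ⟨n, hn⟩ := hex
  obtain ⟨S', h1, h2, h3⟩ := F4a_aux n E {j ∈ S | (E j).ncard = n} hn
    (fun j hj => ⟨hE j, hj.2⟩)
  exact ⟨S', fun j hj => (h1 hj).1, h2, h3⟩

end Pool.Agent.LibMA42
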