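import Pool.Agent.LibMA42.F4b
import Pool.Agent.LibMA42.F3

/-!
MP_3a91e3_lc, forcing side, task F4c: coherent subfamilies.
-/

namespace Pool.Agent.LibMA42

variable {W Ix : Type}

/-- the finite set attached to a condition -/
private def F4c_E (q : Cnd W Ix) : Set (W ⊕ (W × Ix)) := fun x =>
  Sum.elim (fun w => (q w).F.Nonempty) (fun e : W × Ix => e.2 ∈ (q e.1).F) x

private theorem F4c_fin {q : Cnd W Ix} (hq : (supp q).Finite) : (F4c_E q).Finite := by
  have h1 : (Sum.inl '' supp q ∪ ⋃ w ∈ supp q,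
      (fun i : Ix => (Sum.inr (w, i) : W ⊕ (W × Ix))) '' ((q w).F : Set Ix)).Finite :=
    (hq.image _).union (hq.biUnion fun w _ => ((q w).F.finite_toSet).image _)
  refine h1.subset fun x hx => ?_
  rcases x with w | ⟨w, i⟩
  · exact Or.inl ⟨w, hx, rfl⟩
  · have hi : i ∈ (q w).F := hx
    refine Or.inr ?_
    simp only [Set.mem_iUnion]
    exact ⟨w, ⟨i, hi⟩, i, hi, rfl⟩

/-- the type of a condition -/
private def F4c_t (q : Cnd W Ix) (x y : W ⊕ (W × Ix)) : (ℕ × ℕ) × List (Finset ℕ) × ℕ :=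
  (Sum.elim (fun w => ((q w).h, (q w).k)) (fun _ => (0, 0)) x,
    Sum.elim (fun _ => []) (fun e : W × Ix => (List.range (q e.1).h).map ((q e.1).s e.2)) x,
    Sum.elim (fun _ => 0) (fun e : W × Ix =>
      Sum.elim (fun _ => 0) (fun e' : W × Ix => (q e.1).c e.2 e'.2) y) x)

/-- HINT: `delta_homog` with `X = W ⊕ (W × Ix)`, `E a` the set of the stages in the support of `p a` and of
the pairs `(w, i)` with `i ∈ (p a w).F`, `K = (ℕ × ℕ) × List (Finset ℕ) × ℕ` and `t a x y` given by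
`((p a w).h, (p a w).k)` for `x = inl w`, by `(List.range (p a w).h).map ((p a w).s i)` for
`x = inr (w, i)` and by `(p a w).c i j` for `x = inr (w, i)`, `y = inr (w, j)`. -/
theorem exists_coh {J : Type} (S : Set J) (hS : ¬ S.Countable) (p : J → Cnd W Ix)
    (hp : ∀ j, (supp (p j)).Finite) :
    ∃ S' ⊆ S, ¬ S'.Countable ∧ Coh fun a : S' => p a.1 := by
  obtain ⟨S', hS', hunc, hdel, hhom⟩ := delta_homog S hS (fun a => F4c_E (p a))
    (fun a => F4c_fin (hp a)) (fun a => F4c_t (p a))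
  have hhk : ∀ a b : S', ∀ w, (p a.1 w).F.Nonempty → (p b.1 w).F.Nonempty →
      (p a.1 w).h = (p b.1 w).h ∧ (p a.1 w).k = (p b.1 w).k := by
    intro a b w ha hb
    have h1 := hhom a.1 a.2 b.1 b.2 (Sum.inl w) (Sum.inl w) ha hb ha hb
    have h2 := congrArg Prod.fst h1
    exact ⟨congrArg Prod.fst h2, congrArg Prod.snd h2⟩
  refine ⟨S', hS', hunc, hhk, ?_, ?_, ?_⟩
  · intro a b w i ha hb n hn
    have h1 := hhom a.1 a.2 b.1 b.2 (Sum.inr (w, i)) (Sum.inr (w, i)) ha hb ha hb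
    have h2 : (List.range (p a.1 w).h).map ((p a.1 w).s i) =
        (List.range (p b.1 w).h).map ((p b.1 w).s i) := congrArg (fun z => z.2.1) h1
    have h3 : (p a.1 w).h = (p b.1 w).h := (hhk a b w ⟨i, ha⟩ ⟨i, hb⟩).1
    rw [← h3] at h2
    exact List.map_inj_left.1 h2 n (List.mem_range.2 hn)
  · intro a b w i j hai hbi haj hbj
    have h1 := hhom a.1 a.2 b.1 b.2 (Sum.inr (w, i)) (Sum.inr (w, j)) hai hbi haj hbj
    exact congrArg (fun z => z.2.2) h1
  · intro a b w i hab ha hb g _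
    exact hdel a.1 a.2 b.1 b.2 (fun h => hab (Subtype.ext h)) (Sum.inr (w, i)) ha hb g.1 g.2

end Pool.Agent.LibMA42
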