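import Pool.Agent.LibMA42.F4
import Pool.Agent.LibMA42.Defs
import Pool.Agent.LibTk83.C2

/-!
MP_3a91e3_lc, forcing side, task F5: the countable chain condition.
-/

namespace Pool.Agent.LibMA42

open Pool.Agent.LibTk83

variable {W Ix : Type} {f : ℕ → ℕ} [LinearOrder W] [WellFoundedLT W]
  {lab : W → Ix → Ix → ℕ → ℕ → Set (Cnd W Ix)}

omit [LinearOrder W] [WellFoundedLT W] in
theorem F5_coh_comp {A B : Type} {p : A → Cnd W Ix} (h : Coh p) (e : B → A)
    (he : Function.Injective e) : Coh fun b => p (e b) :=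
  ⟨fun _ _ w => h.hk _ _ w, fun _ _ w i => h.s _ _ w i, fun _ _ w i j => h.c _ _ w i j,
    fun a b w i hab hi hj g => h.delta (e a) (e b) w i (fun hh => hab (he hh)) hi hj (e g)⟩

/-- HINT: `exists_coh` with `S = Set.univ`; take two different elements of `S'`; `amalg` for `A = Bool` (a
subfamily of a coherent family is coherent if the indexing map is injective). -/
theorem ccc_PT : CCC (PT f lab) := by
  intro J hJ p
  have hu : ¬ (Set.univ : Set J).Countable := by
    rw [Set.countable_univ_iff, not_countable_iff]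
    exact hJ
  obtain ⟨S', -, hS', hcoh⟩ := exists_coh (Set.univ : Set J) hu (fun j => (p j).1)
    (fun j => (p j).2.1)
  have hnt : S'.Nontrivial := by
    rw [← Set.not_subsingleton_iff]
    intro hss
    exact hS' hss.countable
  obtain ⟨a, ha, b, hb, hab⟩ := hnt
  have he : Function.Injective (fun x : Bool => bif x then (⟨a, ha⟩ : S') else ⟨b, hb⟩) := by
    intro x y hxy
    cases x <;> cases y
    · rfl
    · exact absurd (congrArg Subtype.val hxy) (fun h => hab h.symm)
    · exact absurd (congrArg Subtype.val hxy) hab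
    · rfl
  have hc := F5_coh_comp hcoh _ he
  obtain ⟨q, hq⟩ := amalg (fun x : Bool => p (bif x then (⟨a, ha⟩ : S') else ⟨b, hb⟩).1) hc
  exact ⟨a, b, hab, q, hq true, hq false⟩

/-- HINT: choose `p j ∈ x j` (`RO.ne_bot_iff`); if `J` is uncountable there are `i ≠ j` and
`r ≤ p i, p j`; so `r ∈ x i ⊓ x j = ⊥` (`RO.mem_inf`, `RO.not_mem_bot`). -/
theorem ccc_RO {P : Type} [Preorder P] (hP : CCC P) (J : Type) (x : J → RO P)
    (hx : ∀ j, x j ≠ ⊥) (hd : ∀ i j, i ≠ j → x i ⊓ x j = ⊥) : Countable J := by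
  by_contra hJ
  rw [not_countable_iff] at hJ
  have h1 : ∀ j, ∃ p, p ∈ x j := fun j => RO.ne_bot_iff.1 (hx j)
  choose p hp using h1
  obtain ⟨i, j, hij, r, hri, hrj⟩ := hP J hJ p
  have h2 : r ∈ x i ⊓ x j := RO.mem_inf.2 ⟨RO.mem_of_le hri (hp i), RO.mem_of_le hrj (hp j)⟩
  rw [hd i j hij] at h2
  exact RO.not_mem_bot h2

end Pool.Agent.LibMA42
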