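import Pool.Agent.LibMA42.F1

/-!
MP_3a91e3_lc, forcing side, task F6a: the stages, coding of conditions.
-/

namespace Pool.Agent.LibMA42

/-- The stages. The `m`-th condition of the family given for `i j n a` is coded by the list
`g i j n a m`; it contains the pair `(t, q)` if the part of the condition at the stage
`sub i j n a m t` is `q`. -/
inductive Blk (Ix : Type) : Type
  | nil : Blk Ix
  | mk (g : Ix → Ix → ℕ → ℕ → ℕ → Option (List (ℕ × SC Ix)))
      (sub : Ix → Ix → ℕ → ℕ → ℕ → ℕ → Blk Ix) : Blk Ix

variable {Ix : Type}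

open Classical in
/-- The condition coded by a list. -/
noncomputable def dec {W : Type} (l : List (ℕ × SC Ix)) (sub : ℕ → W) : Cnd W Ix := fun w =>
  match l.find? (fun x => decide (sub x.1 = w)) with
  | some x => x.2
  | none => SC.triv

/-- The names of a stage. -/
noncomputable def Blk.lab : Blk Ix → Ix → Ix → ℕ → ℕ → Set (Cnd (Blk Ix) Ix)
  | .nil, _, _, _, _ => ∅
  | .mk g sub, i, j, n, a => {c | ∃ m l, g i j n a m = some l ∧ c = dec l (sub i j n a m)}

/-- Each finitely supported condition is equivalent to a coded one. HINT: enumerate the finite support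
(`Set.Finite.toFinset`, `Finset.toList`) as a list of stages; `l` is the list of the pairs of the
position and the value there, `sub t` is the `t`-th element (the fixed stage `w₀` for `t` outside of the
range of the enumeration). `SLe f x SC.triv` and `SLe f x y` for `y.F = ∅` are true (`SLe.of_empty`). -/
theorem exists_dec {W : Type} (f : ℕ → ℕ) (w₀ : W) (c : Cnd W Ix) (hc : (supp c).Finite) :
    ∃ (l : List (ℕ × SC Ix)) (sub : ℕ → W), (∀ r : Cnd W Ix, CLe f r (dec l sub) ↔ CLe f r c) ∧
      ∀ v ∈ supp c, ∃ t, sub t = v := by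
  classical
  obtain ⟨L, hL⟩ : ∃ L : List W, ∀ v, v ∈ L ↔ v ∈ supp c :=
    ⟨hc.toFinset.toList, fun v => by rw [Finset.mem_toList, Set.Finite.mem_toFinset]⟩
  obtain ⟨sub, hsub⟩ : ∃ sub : ℕ → W, sub = fun t => L.getD t w₀ := ⟨_, rfl⟩
  have hsub2 : ∀ v ∈ supp c, ∃ t, t < L.length ∧ sub t = v := by
    intro v hv
    obtain ⟨t, ht, htv⟩ := List.getElem_of_mem ((hL v).2 hv)
    refine ⟨t, ht, ?_⟩
    rw [hsub]
    change L.getD t w₀ = v
    rw [List.getD_eq_getElem _ _ ht, htv]
  obtain ⟨l, hl⟩ : ∃ l : List (ℕ × SC Ix), l = (List.range L.length).map fun t => (t, c (sub t)) :=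
    ⟨_, rfl⟩
  refine ⟨l, sub, fun r => ?_, fun v hv => ?_⟩
  · have key : ∀ w, SLe f (r w) (dec l sub w) ↔ SLe f (r w) (c w) := by
      intro w
      rcases hfind : l.find? (fun x => decide (sub x.1 = w)) with _ | x
      · have h1 : dec l sub w = SC.triv := by
          unfold dec
          rw [hfind]
        rw [h1]
        have h2 : (c w).F = ∅ := by
          by_contra hne
          have hw : w ∈ supp c := Finset.nonempty_iff_ne_empty.2 hne
          obtain ⟨t, ht, htw⟩ := hsub2 w hw
          rw [List.find?_eq_none] at hfind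
          refine hfind (t, c (sub t)) ?_ (by simpa using htw)
          rw [hl, List.mem_map]
          exact ⟨t, List.mem_range.2 ht, rfl⟩
        exact ⟨fun _ => SLe.of_empty h2, fun _ => SLe.of_empty rfl⟩
      · have h1 : dec l sub w = x.2 := by
          unfold dec
          rw [hfind]
        have h2 : x ∈ l := List.mem_of_find?_eq_some hfind
        have h3 : sub x.1 = w := by
          have := List.find?_some hfind
          simpa using this
        rw [hl, List.mem_map] at h2
        obtain ⟨t, -, rfl⟩ := h2
        have h4 : sub t = w := h3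
        rw [h1]
        change SLe f (r w) (c (sub t)) ↔ _
        rw [h4]
    exact ⟨fun h w => (key w).1 (h w), fun h w => (key w).2 (h w)⟩
  · obtain ⟨t, -, ht⟩ := hsub2 v hv
    exact ⟨t, ht⟩

end Pool.Agent.LibMA42
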