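import Pool.Agent.LibMA42.F6a

/-!
MP_3a91e3_lc, forcing side, task F6b: the well-order of the stages.
-/

namespace Pool.Agent.LibMA42

/-- The rank of a stage. -/
noncomputable def F6b_rk {Ix : Type} : Blk Ix → Ordinal.{0}
  | .nil => 0
  | .mk _ sub => ⨆ x : Ix × Ix × ℕ × ℕ × ℕ × ℕ,
      Order.succ (F6b_rk (sub x.1 x.2.1 x.2.2.1 x.2.2.2.1 x.2.2.2.2.1 x.2.2.2.2.2))

theorem F6b_rk_lt {Ix : Type} (g : Ix → Ix → ℕ → ℕ → ℕ → Option (List (ℕ × SC Ix)))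
    (sub : Ix → Ix → ℕ → ℕ → ℕ → ℕ → Blk Ix) (i j : Ix) (n a m t : ℕ) :
    F6b_rk (sub i j n a m t) < F6b_rk (Blk.mk g sub) := by
  have h1 : F6b_rk (Blk.mk g sub) = ⨆ x : Ix × Ix × ℕ × ℕ × ℕ × ℕ,
      Order.succ (F6b_rk (sub x.1 x.2.1 x.2.2.1 x.2.2.2.1 x.2.2.2.2.1 x.2.2.2.2.2)) := rfl
  rw [h1]
  exact (Order.lt_succ _).trans_le (Ordinal.le_iSup (fun x : Ix × Ix × ℕ × ℕ × ℕ × ℕ =>
    Order.succ (F6b_rk (sub x.1 x.2.1 x.2.2.1 x.2.2.2.1 x.2.2.2.2.1 x.2.2.2.2.2)))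
    (i, j, n, a, m, t))

/-- The key of a stage. -/
noncomputable def F6b_key {Ix : Type} (b : Blk Ix) : Ordinal.{0} ×ₗ Cardinal.{0} :=
  toLex (F6b_rk b, embeddingToCardinal b)

theorem F6b_key_inj {Ix : Type} : Function.Injective (F6b_key (Ix := Ix)) := by
  intro a b h
  have h1 := congrArg (fun x => (ofLex x).2) h
  exact embeddingToCardinal.injective h1

/-- The well-order of the stages. HINT: rank `rk : Blk Ix → Ordinal.{0}` by recursion: `rk nil = 0`,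
`rk (mk g sub) = ⨆ x : Ix × Ix × ℕ × ℕ × ℕ × ℕ, Order.succ (rk (sub ..))`; order the stages by the rank and
then by an arbitrary well-order (`WellOrderingRel`; `LinearOrder.lift'` for an injective map into
`Ordinal ×ₗ Ordinal`, `WellFoundedLT` by `InvImage`). -/
theorem exists_order (Ix : Type) : ∃ (_ : LinearOrder (Blk Ix)) (_ : WellFoundedLT (Blk Ix)),
    ∀ (g : Ix → Ix → ℕ → ℕ → ℕ → Option (List (ℕ × SC Ix)))
      (sub : Ix → Ix → ℕ → ℕ → ℕ → ℕ → Blk Ix) (i j : Ix) (n a m t : ℕ),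
      sub i j n a m t < Blk.mk g sub := by
  have hwf : WellFounded (fun a b : Blk Ix => F6b_key a < F6b_key b) :=
    InvImage.wf F6b_key wellFounded_lt
  refine ⟨LinearOrder.lift' F6b_key F6b_key_inj, ⟨hwf⟩, ?_⟩
  intro g sub i j n a m t
  change F6b_key (sub i j n a m t) < F6b_key (Blk.mk g sub)
  exact Prod.Lex.toLex_lt_toLex.2 (Or.inl (F6b_rk_lt g sub i j n a m t))

end Pool.Agent.LibMA42
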