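import Pool.Agent.LibMA42.F6b

/-!
MP_3a91e3_lc, forcing side, task F6c: the catalogue of the names.
-/

namespace Pool.Agent.LibMA42

theorem F6c_enum {X : Type} (S : Set X) (hS : S.Countable) :
    ∃ e : ℕ → Option X, ∀ c, c ∈ S ↔ ∃ m, e m = some c := by
  have : Countable S := hS.to_subtype
  let _ : Encodable S := Encodable.ofCountable S
  refine ⟨fun m => (Encodable.decode (α := S) m).map Subtype.val, fun c => ⟨fun hc => ?_, ?_⟩⟩
  · refine ⟨Encodable.encode (⟨c, hc⟩ : S), ?_⟩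
    change (Encodable.decode (α := S) (Encodable.encode (⟨c, hc⟩ : S))).map Subtype.val = some c
    rw [Encodable.encodek]
    rfl
  · rintro ⟨m, hm⟩
    obtain ⟨x, -, hx⟩ := Option.map_eq_some_iff.1 hm
    rw [← hx]
    exact x.2

/-- The catalogue. HINT: `Blk Ix`, `exists_order`, `Blk.lab`, `w₀ = nil`. Given `C`, enumerate each `C i j n a`
by `ℕ → Option (Cnd ..)` (`Set.Countable.exists_eq_range`, or the empty set) and code each condition `c` by
`exists_dec`; the stage is `w = mk g sub`. -/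
theorem exists_catalog (f : ℕ → ℕ) (Ix : Type) : ∃ (W : Type) (_ : LinearOrder W)
    (_ : WellFoundedLT W) (lab : W → Ix → Ix → ℕ → ℕ → Set (Cnd W Ix)) (w₀ : W),
    (∀ i j n a, lab w₀ i j n a = ∅) ∧
    ∀ C : Ix → Ix → ℕ → ℕ → Set (Cnd W Ix), (∀ i j n a, (C i j n a).Countable) →
      (∀ i j n a, ∀ c ∈ C i j n a, (supp c).Finite) →
      ∃ w, (∀ i j n a r, (∃ c ∈ lab w i j n a, CLe f r c) ↔ ∃ c ∈ C i j n a, CLe f r c) ∧
        ∀ i j n a, ∀ c ∈ C i j n a, ∀ v, (c v).F.Nonempty → v < w := by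
  obtain ⟨lo, wf, hlt⟩ := exists_order Ix
  refine ⟨Blk Ix, lo, wf, Blk.lab, Blk.nil, fun _ _ _ _ => rfl, ?_⟩
  intro C hC hfin
  have h0 : ∀ i j n a, ∃ e : ℕ → Option (Cnd (Blk Ix) Ix), ∀ c, c ∈ C i j n a ↔ ∃ m, e m = some c :=
    fun i j n a => F6c_enum (C i j n a) (hC i j n a)
  choose e he using h0
  have h1 : ∀ c : Cnd (Blk Ix) Ix, (supp c).Finite → ∃ (l : List (ℕ × SC Ix)) (sub : ℕ → Blk Ix),
      (∀ r : Cnd (Blk Ix) Ix, CLe f r (dec l sub) ↔ CLe f r c) ∧
      ∀ v ∈ supp c, ∃ t, sub t = v := fun c hc => exists_dec f Blk.nil c hc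
  have hne : Nonempty (Blk Ix) := ⟨Blk.nil⟩
  choose! l sub hd hs using h1
  obtain ⟨g, hg⟩ : ∃ g : Ix → Ix → ℕ → ℕ → ℕ → Option (List (ℕ × SC Ix)),
      g = fun i j n a m => (e i j n a m).map l := ⟨_, rfl⟩
  obtain ⟨sub', hsub'⟩ : ∃ sub' : Ix → Ix → ℕ → ℕ → ℕ → ℕ → Blk Ix,
      sub' = fun i j n a m => (match e i j n a m with
        | some c => sub c
        | none => fun _ => Blk.nil) := ⟨_, rfl⟩
  have hg' : ∀ i j n a m c, e i j n a m = some c → g i j n a m = some (l c) := by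
    intro i j n a m c h
    rw [hg]
    change (e i j n a m).map l = _
    rw [h]
    rfl
  have hsub2 : ∀ i j n a m c, e i j n a m = some c → sub' i j n a m = sub c := by
    intro i j n a m c h
    rw [hsub']
    change (match e i j n a m with
        | some c => sub c
        | none => fun _ => Blk.nil) = _
    rw [h]
  refine ⟨Blk.mk g sub', fun i j n a r => ⟨?_, ?_⟩, fun i j n a c hc v hv => ?_⟩
  · rintro ⟨c, ⟨m, l', hl', rfl⟩, hrc⟩
    rcases hem : e i j n a m with _ | c'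
    · rw [hg] at hl'
      change (e i j n a m).map l = _ at hl'
      rw [hem] at hl'
      exact absurd hl' (by simp)
    · have h2 := hg' i j n a m c' hem
      rw [h2] at hl'
      have h3 : l c' = l' := Option.some.inj hl'
      rw [← h3, hsub2 i j n a m c' hem] at hrc
      have hc' : c' ∈ C i j n a := (he i j n a c').2 ⟨m, hem⟩
      exact ⟨c', hc', (hd c' (hfin i j n a c' hc') r).1 hrc⟩
  · rintro ⟨c, hc, hrc⟩
    obtain ⟨m, hm⟩ := (he i j n a c).1 hc
    refine ⟨dec (l c) (sub c), ⟨m, l c, hg' i j n a m c hm, ?_⟩,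
      (hd c (hfin i j n a c hc) r).2 hrc⟩
    rw [hsub2 i j n a m c hm]
  · obtain ⟨m, hm⟩ := (he i j n a c).1 hc
    obtain ⟨t, ht⟩ := hs c (hfin i j n a c hc) v hv
    rw [← ht, ← hsub2 i j n a m c hm]
    exact hlt g sub' i j n a m t

end Pool.Agent.LibMA42
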