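import Pool.Agent.LibMA42.F5

/-!
MP_3a91e3_lc, forcing side, task F7: the generic slaloms.
-/

namespace Pool.Agent.LibMA42

open Pool.Agent.LibTk83

variable {W Ix : Type} {f : ℕ → ℕ} [LinearOrder W] [WellFoundedLT W]
  {lab : W → Ix → Ix → ℕ → ℕ → Set (Cnd W Ix)}

/-- The generic slalom `σ i` of stage `w`. -/
noncomputable def sig (w : W) (i : Ix) (n a : ℕ) : RO (PT f lab) :=
  RO.gen {p : PT f lab | i ∈ (p.1 w).F ∧ n < (p.1 w).h ∧ a ∈ (p.1 w).s i n}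

/-- HINT: `RO.mem_gen`. If `q ≤ p` then `n < (q.1 w).h` and `(q.1 w).s i n = (p.1 w).s i n`. -/
theorem mem_sig {w : W} {i : Ix} {n a : ℕ} {p : PT f lab} (hi : i ∈ (p.1 w).F)
    (hn : n < (p.1 w).h) : p ∈ (sig w i n a : RO (PT f lab)) ↔ a ∈ (p.1 w).s i n := by
  unfold sig
  rw [RO.mem_gen]
  constructor
  · intro h
    obtain ⟨r, hrp, s, ⟨hsi, hsn, hsa⟩, hrs⟩ := h p le_rfl
    have h1 := hrp w i hi
    have h2 := hrs w i hsi
    rw [← h1.2.2.2.1 n hn, h2.2.2.2.1 n hsn]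
    exact hsa
  · intro h q hq
    exact ⟨q, le_rfl, p, ⟨hi, hn, h⟩, hq⟩

/-- HINT: for `n`, strengthen to a condition with `i ∈ F`, `n < h` (`dense_stage`), then `mem_sig` and
the clause `v0` (`OKS_rs`). -/
theorem sig_sup {w : W} {i : Ix} {n a : ℕ} (ha : f n ≤ a) : (sig w i n a : RO (PT f lab)) = ⊥ := by
  by_contra hne
  obtain ⟨p, hp⟩ := RO.ne_bot_iff.1 hne
  obtain ⟨q, hqp, hqF, hqh, -⟩ := dense_stage p w i (n + 1) 0
  have hi : i ∈ (q.1 w).F := by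
    classical
    rw [hqF]
    simp
  have hn : n < (q.1 w).h := lt_of_lt_of_le (Nat.lt_succ_self n) hqh
  have h1 : a ∈ (q.1 w).s i n := (mem_sig hi hn).1 (RO.mem_of_le hqp hp)
  have h2 := (OKS_rs w q).v0 i hi n hn h1
  rw [Finset.mem_range] at h2
  omega

/-- HINT: let `K` and `p` be given; take `q ≤ p` with `i ∈ F_q(w)`, `k_q(w) ≥ K` (`dense_stage`), `m = h_q(w)`.
Then `q ∈ cap f K n (sig w i n)` for `n ≥ m`: if `r ≤ q` is in `⨅ a ∈ A, sig w i n a`, take `r₁ ≤ r` with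
`n < h_(r₁)(w)`; then `A ⊆ (r₁.1 w).s i n` by `mem_sig`, and `K * A.card ≤ k_q * card ≤ f n` by
`SLe f (r₁.1 w) (q.1 w)`. Use `RO.eq_top_iff'`, `RO.mem_iInf`, `RO.mem_iSup`, `RO.mem_compl`. -/
theorem sig_NS (w : W) (i : Ix) : NS f (sig w i : ℕ → ℕ → RO (PT f lab)) := by
  refine ⟨fun n a ha => sig_sup ha, ?_⟩
  unfold nul
  refine RO.eq_top_iff'.2 fun p => ⟨p, le_rfl, ?_⟩
  rw [RO.mem_iInf]
  intro K
  rw [RO.mem_iSup]
  intro p' _
  obtain ⟨q, hqp, hqF, -, hqk⟩ := dense_stage p' w i 0 K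
  have hi : i ∈ (q.1 w).F := by
    classical
    rw [hqF]
    simp
  have hK : K ≤ (q.1 w).k := by
    rw [hqk]
    exact le_max_right _ _
  refine ⟨q, hqp, (q.1 w).h, ?_⟩
  rw [RO.mem_iInf]
  intro n
  rw [RO.mem_iInf]
  intro hn
  unfold cap
  rw [RO.mem_iInf]
  intro A
  rw [RO.mem_iInf]
  rintro ⟨-, hA⟩
  rw [RO.mem_compl]
  intro r hr hrA
  obtain ⟨r₁, hr₁, -, hr₁h, -⟩ := dense_stage r w i (n + 1) 0
  have h1 := (PT.le_def.1 (hr₁.trans hr)) w i hi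
  obtain ⟨hi₁, -, -, -, h5, -⟩ := h1
  have hn₁ : n < (r₁.1 w).h := lt_of_lt_of_le (Nat.lt_succ_self n) hr₁h
  have h6 : A ⊆ (r₁.1 w).s i n := by
    intro a ha
    rw [RO.mem_iInf] at hrA
    have h7 := hrA a
    rw [RO.mem_iInf] at h7
    exact (mem_sig hi₁ hn₁).1 (RO.mem_of_le hr₁ (h7 ha))
  have h8 := h5 n hn hn₁
  have h9 : K * A.card ≤ (q.1 w).k * ((r₁.1 w).s i n).card :=
    Nat.mul_le_mul hK (Finset.card_le_card h6)
  omega

end Pool.Agent.LibMA42
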