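import Pool.Agent.LibMA42.F8d

/-!
MP_3a91e3_lc, forcing side, task F8a: the stage is good.
-/

namespace Pool.Agent.LibMA42

open Pool.Agent.LibTk83

variable {W Ix : Type} {f : ℕ → ℕ} [LinearOrder W] [WellFoundedLT W]
  {lab : W → Ix → Ix → ℕ → ℕ → Set (Cnd W Ix)}

/-- The stage is good. HINT: let `r` with `PV f lab w r` be given; `p = ⟨r, _⟩ : PT f lab` (`PV.VV`). As
`⨆ m, ⨅ n ≥ m, cap f K n (φ i j n) = ⊤` there are `q ≤ p` and `m` with `q ∈ cap f K n (φ i j n)` for all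
`n ≥ m`; take `r' = res w q.1` (`PV_res`; `CLe f (res w q.1) r`: `res_mono`, `res_le`). Let `r''` be valid
with `CLe f r'' r'`, `n ≥ m`, and `A = TT f (lab w) r'' i j n`. The condition `r'' ∪ q` (that is `rep w r'' (q.1 w) q.1`:
`PT.rep` with `OKS_rs`, `OKS.mono`) is stronger than `q` and `r''`, so it is in `φ i j n a` for all
`a ∈ A` (by `gen`; `RO.mem_gen`), so `K * A.card ≤ f n` because it is in `cap f K n (φ i j n)`. -/
theorem Desc.good {w : W} {φ : Ix → Ix → ℕ → ℕ → RO (PT f lab)} (h : Desc w φ)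
    (hφ : ∀ i j, NS f (φ i j)) : Gd f (PV f lab w) (lab w) := by
  classical
  intro i j K r hr
  obtain ⟨p, hpr⟩ : ∃ p : PT f lab, p.1 = r := ⟨⟨r, hr.VV⟩, rfl⟩
  subst hpr
  have hp : p ∈ (nul f (φ i j)) := by
    rw [(hφ i j).nul]
    exact RO.mem_top
  unfold nul at hp
  rw [RO.mem_iInf] at hp
  have hp1 := hp K
  rw [RO.mem_iSup] at hp1
  obtain ⟨q, hq, m, hm⟩ := hp1 _ le_rfl
  rw [RO.mem_iInf] at hm
  have hle : CLe f (res w q.1) p.1 := CLe.trans (res_mono hq) (res_le hr.2.1)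
  refine ⟨res w q.1, PV_res q.2, hle, m, fun n hn r'' hr'' hrr => ?_⟩
  obtain ⟨u, hu⟩ : ∃ u : PP f lab w, u.1 = r'' := ⟨⟨r'', hr''⟩, rfl⟩
  subst hu
  by_contra hcon
  push Not at hcon
  have h1 := hm n
  rw [RO.mem_iInf] at h1
  have h2 := h1 hn
  unfold cap at h2
  rw [RO.mem_iInf] at h2
  have h3 := h2 (TT f (lab w) u.1 i j n)
  rw [RO.mem_iInf] at h3
  have h4 := h3 ⟨by unfold TT; exact Finset.filter_subset _ _, hcon⟩
  rw [RO.mem_compl] at h4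
  have hrs : u ≤ q.rs w := hrr
  refine h4 (q.rep u hrs (q.1 w) ((OKS_rs w q).mono hrs) (SLe.refl _))
    (PT.rep_le _ _ _ _ _ _) ?_
  rw [RO.mem_iInf]
  intro a
  rw [RO.mem_iInf]
  intro ha
  unfold TT at ha
  obtain ⟨-, c, hc, hrc⟩ := Finset.mem_filter.1 ha
  rw [h.gen, RO.mem_gen]
  intro t ht
  refine ⟨t, le_rfl, t, ⟨c, hc, ?_⟩, le_rfl⟩
  refine CLe.trans ht (CLe.trans ?_ hrc)
  intro v
  change SLe f (LibMA42.rep w u.1 (q.1 w) q.1 v) (u.1 v)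
  rcases lt_or_ge v w with hv | hv
  · rw [rep_lt hv]
    exact SLe.refl _
  · exact SLe.of_empty (u.2.2.1 v hv)

end Pool.Agent.LibMA42
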