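import Pool.Agent.LibMA42.F8a

/-!
MP_3a91e3_lc, forcing side, task F8b: the star property.
-/

namespace Pool.Agent.LibMA42

open Pool.Agent.LibTk83

variable {W Ix : Type} {f : ℕ → ℕ} [LinearOrder W] [WellFoundedLT W]
  {lab : W → Ix → Ix → ℕ → ℕ → Set (Cnd W Ix)}

/-- HINT: let `p` be given. Take `q ≤ p` with `i, j ∈ F_q(w)` (`dense_stage` twice), `m = (q.1 w).c i j`. For
`n ≥ m`, `a`, `r ≤ q` with `r ∈ φ i j n a`: we have `a < f n` (else `φ i j n a = ⊥`); let `r₁ ≤ r` with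
`n < h_(r₁)(w)`, and `r₂ ≤ r₁`, `c ∈ lab w i j n a` with `CLe f r₂.1 c` (`gen`). By `loc`, `CLe f (res w r₂.1) c'`,
so `a ∈ (NN f lab w).T (r₂.rs w) i j n` (unfold `NN`, `TE`, `TT`; `h.good`). By `v3` (`OKS_rs w r₂`; `(r₂.1 w).c i j = m`)
`a` is in `s i n ∪ s j n`, so `r₂ ∈ sig w i n a ⊔ sig w j n a` (`mem_sig`). Conclude with
`RO.mem_himp`, `RO.mem_of_dense`. -/
theorem Desc.star {w : W} {φ : Ix → Ix → ℕ → ℕ → RO (PT f lab)} (h : Desc w φ)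
    (hφ : ∀ i j, NS f (φ i j)) {i j : Ix} (hij : i ≠ j) :
    ale (φ i j) (jn (sig w i) (sig w j)) = ⊤ := by
  classical
  rw [RO.eq_top_iff']
  intro p
  obtain ⟨q1, hq1, hF1, -, -⟩ := dense_stage p w i 0 0
  obtain ⟨q, hq, hF, -, -⟩ := dense_stage q1 w j 0 0
  refine ⟨q, le_trans hq hq1, ?_⟩
  have hi : i ∈ (q.1 w).F := by
    rw [hF, hF1]
    simp
  have hj : j ∈ (q.1 w).F := by
    rw [hF]
    simp
  unfold ale
  rw [RO.mem_iSup]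
  intro q' hq'
  refine ⟨q', le_rfl, (q.1 w).c i j, RO.mem_of_le hq' ?_⟩
  rw [RO.mem_iInf]
  intro n
  rw [RO.mem_iInf]
  intro hn
  rw [RO.mem_iInf]
  intro a
  rw [RO.mem_himp]
  intro r hr hra
  by_cases hfa : f n ≤ a
  · rw [(hφ i j).sup n a hfa] at hra
    exact absurd hra RO.not_mem_bot
  push Not at hfa
  unfold jn
  rw [RO.mem_sup]
  intro r0 hr0
  obtain ⟨r1, hr1, hF1', hh1, -⟩ := dense_stage r0 w i (n + 1) 0
  have hr1a : r1 ∈ φ i j n a := RO.mem_of_le (le_trans hr1 hr0) hra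
  rw [h.gen, RO.mem_gen] at hr1a
  obtain ⟨r2, hr2, s, ⟨c, hc, hsc⟩, hrs⟩ := hr1a r1 le_rfl
  have hr2c : CLe f r2.1 c := CLe.trans hrs hsc
  obtain ⟨c', hc', hrc'⟩ := h.loc i j n a r2.1 ⟨c, hc, hr2c⟩
  have hr2q : r2 ≤ q := le_trans hr2 (le_trans hr1 (le_trans hr0 hr))
  have hi2 : i ∈ (r2.1 w).F := CLe.mem (f := f) hr2q hi
  have hj2 : j ∈ (r2.1 w).F := CLe.mem (f := f) hr2q hj
  have hc2 : (r2.1 w).c i j = (q.1 w).c i j := (hr2q w i hi).2.2.2.2.2 j hj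
  have hi1 : i ∈ (r1.1 w).F := by
    rw [hF1']
    simp
  have hn2 : n < (r2.1 w).h := by
    have h1 : (r1.1 w).h ≤ (r2.1 w).h := (hr2 w i hi1).2.1
    omega
  have haT : a ∈ (NN f lab w).T (r2.rs w) i j n := by
    change a ∈ TE f (PV f lab w) (lab w) (res w r2.1) i j n
    unfold TE
    rw [if_pos (h.good hφ)]
    unfold TT
    rw [Finset.mem_filter]
    exact ⟨Finset.mem_range.2 hfa, c', hc', hrc'⟩
  have h3 := (OKS_rs w r2).v3 i hi2 j hj2 hij n hn2 (by rw [hc2]; exact hn) _ le_rfl haT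
  refine ⟨r2, le_trans hr2 hr1, ?_⟩
  rw [mem_sig hi2 hn2, mem_sig hj2 hn2]
  exact Finset.mem_union.1 h3

end Pool.Agent.LibMA42
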