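import Pool.Agent.LibMA42.F7

/-!
MP_3a91e3_lc, forcing side, names described by a stage (definition).
-/

namespace Pool.Agent.LibMA42

open Pool.Agent.LibTk83

variable {W Ix : Type} {f : ℕ → ℕ} [LinearOrder W] [WellFoundedLT W]
  {lab : W → Ix → Ix → ℕ → ℕ → Set (Cnd W Ix)}

/-- `lab w` describes the names `φ`: `φ i j n a` is generated by the conditions which are stronger
than one in `lab w i j n a`, and whether `r` is stronger than such a condition depends only on the
restriction of `r` to the stages below `w`. -/
structure Desc (w : W) (φ : Ix → Ix → ℕ → ℕ → RO (PT f lab)) : Prop where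
  gen : ∀ i j n a, φ i j n a = RO.gen {p : PT f lab | ∃ c ∈ lab w i j n a, CLe f p.1 c}
  loc : ∀ i j n a, ∀ r : Cnd W Ix, (∃ c ∈ lab w i j n a, CLe f r c) →
    ∃ c ∈ lab w i j n a, CLe f (res w r) c

end Pool.Agent.LibMA42
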