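import Pool.Agent.LibMA42.F7

/-!
MP_3a91e3_lc, forcing side, task F9a: increasing the height.
-/

namespace Pool.Agent.LibMA42

open Pool.Agent.LibTk83

variable {W Ix : Type} {f : ℕ → ℕ} [LinearOrder W] [WellFoundedLT W]
  {lab : W → Ix → Ix → ℕ → ℕ → Set (Cnd W Ix)}

/-- At a stage without names the names are empty. -/
theorem F9a_T {w : W} (hw : ∀ i j n a, lab w i j n a = ∅) (r : PP f lab w) (i j : Ix) (n : ℕ) :
    (NN f lab w).T r i j n = ∅ := by
  classical
  change TE f (PV f lab w) (lab w) r.1 i j n = ∅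
  unfold TE
  split_ifs with hG
  · unfold TT
    rw [Finset.filter_eq_empty_iff]
    rintro a - ⟨c, hc, -⟩
    rw [hw] at hc
    exact hc
  · rfl

theorem F9a_UT {w : W} (hw : ∀ i j n a, lab w i j n a = ∅) (r : PP f lab w) (F : Finset Ix)
    (n : ℕ) : UT ((NN f lab w).T r) F n = ∅ := by
  classical
  unfold UT
  ext a
  simp [F9a_T hw]

/-- At a stage without names we may increase the height of `p` by one, with arbitrary small sets at
the new level. HINT: `PT.rep` with `r = p.rs w` and `q = {(p.1 w) with h := h + 1, s := ...}`; `v0`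
from the old one and `ht`; for `v2` and `v3` all the sets `(NN f lab w).T` are empty (`hw`, `TT`). -/
theorem raise {w : W} (hw : ∀ i j n a, lab w i j n a = ∅) (p : PT f lab) (t : Ix → Finset ℕ)
    (ht : ∀ i, t i ⊆ Finset.range (f (p.1 w).h))
    (hk : ∀ i, (p.1 w).k * (t i).card ≤ f (p.1 w).h) :
    ∃ q, q ≤ p ∧ (∀ v, v ≠ w → q.1 v = p.1 v) ∧ (q.1 w).F = (p.1 w).F ∧
      (q.1 w).h = (p.1 w).h + 1 ∧ (q.1 w).k = (p.1 w).k ∧ (q.1 w).c = (p.1 w).c ∧
      (∀ i, (q.1 w).s i (p.1 w).h = t i) ∧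
      ∀ i n, n < (p.1 w).h → (q.1 w).s i n = (p.1 w).s i n := by
  classical
  set q0 : SC Ix :=
    { (p.1 w) with
      h := (p.1 w).h + 1
      s := fun i n => if n = (p.1 w).h then t i else (p.1 w).s i n } with hq0
  have hold := OKS_rs w p
  have hs : ∀ i n, n < (p.1 w).h → q0.s i n = (p.1 w).s i n := by
    intro i n hn
    simp [hq0, hn.ne]
  have hs' : ∀ i, q0.s i (p.1 w).h = t i := by
    intro i
    simp [hq0]
  have hok : OKS f (NN f lab w) (p.rs w) q0 := by
    refine ⟨fun i hi n hn => ?_, fun n _ r' _ => ?_, fun i _ j _ _ n _ _ r' _ => ?_⟩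
    · have hn' : n < (p.1 w).h + 1 := hn
      rcases (Nat.lt_succ_iff.1 hn').lt_or_eq with h | rfl
      · rw [hs i n h]
        exact hold.v0 i hi n h
      · rw [hs' i]
        exact ht i
    · rw [F9a_UT hw]
      simp
    · rw [F9a_T hw]
      exact Finset.empty_subset _
  have hle : SLe f q0 (p.1 w) := by
    intro i hi
    refine ⟨hi, Nat.le_succ _, le_rfl, fun n hn => hs i n hn, fun n h1 h2 => ?_, fun j _ => rfl⟩
    have hn' : n < (p.1 w).h + 1 := h2
    obtain rfl : n = (p.1 w).h := le_antisymm (Nat.lt_succ_iff.1 hn') h1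
    rw [hs' i]
    exact hk i
  refine ⟨p.rep (p.rs w) le_rfl q0 hok hle, PT.rep_le p _ _ _ _ _, fun v hv => ?_, ?_⟩
  · change rep w (res w p.1) q0 p.1 v = p.1 v
    rcases lt_or_gt_of_ne hv with h | h
    · rw [rep_lt h, res_of_lt h]
    · rw [rep_gt h]
  · have hqw : (p.rep (p.rs w) le_rfl q0 hok hle).1 w = q0 := rep_eq w _ _ _
    rw [hqw]
    exact ⟨rfl, rfl, rfl, rfl, hs', fun i n hn => hs i n hn⟩

end Pool.Agent.LibMA42
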