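import Pool.Agent.LibMA42.F9a

/-!
MP_3a91e3_lc, forcing side, task F9b: the unbounded family.
-/

namespace Pool.Agent.LibMA42

open Pool.Agent.LibTk83

variable {W Ix : Type} {f : ℕ → ℕ} [LinearOrder W] [WellFoundedLT W]
  {lab : W → Ix → Ix → ℕ → ℕ → Set (Cnd W Ix)}

theorem F9b_fiber {I C : Type} [Uncountable I] [Countable C] (g : I → C) :
    ∃ v, ¬ (g ⁻¹' {v}).Countable := by
  by_contra hcon
  push Not at hcon
  have h1 : (⋃ v, g ⁻¹' {v}).Countable := Set.countable_iUnion hcon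
  have h2 : (⋃ v, g ⁻¹' {v}) = Set.univ := by
    ext x
    simp
  rw [h2] at h1
  exact not_countable (α := I) (Set.countable_univ_iff.1 h1)

theorem F9b_step {w : W} {i : Ix} {ψ : ℕ → ℕ → RO (PT f lab)} {q : PT f lab}
    (hq : q ∈ ale (sig w i) ψ) (m0 : ℕ) : ∃ p, p ≤ q ∧ i ∈ (p.1 w).F ∧ m0 ≤ (p.1 w).h ∧
      (p.1 w).k ≤ (p.1 w).h ∧ ∀ n, (p.1 w).h ≤ n → ∀ a r, r ≤ p →
        r ∈ (sig w i n a : RO (PT f lab)) → r ∈ ψ n a := by
  classical
  unfold ale at hq
  rw [RO.mem_iSup] at hq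
  obtain ⟨p1, hp1, m, hm⟩ := hq q le_rfl
  obtain ⟨p2, hp2, hF2, hh2, hk2⟩ := dense_stage p1 w i (max m m0) 0
  obtain ⟨p3, hp3, hF3, hh3, hk3⟩ := dense_stage p2 w i (p2.1 w).k 0
  have hi2 : i ∈ (p2.1 w).F := by
    rw [hF2]
    simp
  have h23 : (p2.1 w).h ≤ (p3.1 w).h := (hp3 w i hi2).2.1
  have hm3 : m ≤ (p3.1 w).h := (le_max_left _ _).trans (hh2.trans h23)
  refine ⟨p3, le_trans hp3 (le_trans hp2 hp1), ?_, (le_max_right _ _).trans (hh2.trans h23), ?_, ?_⟩
  · rw [hF3]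
    simp
  · rw [hk3, Nat.max_zero]
    exact hh3
  · intro n hn a r hr hra
    rw [RO.mem_iInf] at hm
    have h1 := hm n
    rw [RO.mem_iInf] at h1
    have h2 := h1 (hm3.trans hn)
    rw [RO.mem_iInf] at h2
    have h3 := h2 a
    rw [RO.mem_himp] at h3
    exact h3 r (le_trans hr (le_trans hp3 hp2)) hra

/-- HINT. Suppose `⨅ i, ale (sig w (ι i)) ψ ≠ ⊥`, so it contains some `p₀`; as `nul f ψ = ⊤` we may assume that
`p₀ ∈ cap f 2 n (ψ n)` for all `n ≥ m₀` (some `m₀`). For each `i` choose `p i ≤ p₀` and `m i` with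
`p i ∈ (sig w (ι i) n a ⇨ ψ n a)` for all `n ≥ m i` and all `a`, then (by `dense_stage` twice)
`ι i ∈ F_(p i)(w)`, and `h_(p i)(w) ≥ m i, m₀, 2, k_(p i)(w)` (take `k' = 0` the second time, so that `k`
remains). There is an uncountable set `S` of `i` on which `m i`, `h_(p i)(w)`, `k_(p i)(w)` are constant (`h`, `k`),
and by `exists_coh` an uncountable `S' ⊆ S` with `Coh`. Fix `g ∈ S'`; the set of the `i ∈ S'` with
`ι i ∈ (p g w).F` is finite; for the other `i ∈ S'` and `b ≠ i` in `S'` we have `ι i ∉ (p b w).F` (`Coh.delta`).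
Let `K = f h / 2 + 1`, so `K ≤ f h` (`f h ≥ h ≥ 2`) and `f h < 2 * K`; choose an injective sequence
`i_0, ..., i_(K-1)` of these (`Fin K`), and let `q_j ≤ p (i_j)` be given by `raise` with `t (ι i_j) = {j}`
and `t x = ∅` otherwise (`k ≤ h ≤ f h`). The `q_j` are coherent; by `amalg` there is `q ≤ q_j` for all `j`.
So `q ∈ sig w (ι i_j) h j` (`mem_sig`), so `q ∈ ψ h j` for all `j < K`; this contradicts
`q ∈ cap f 2 h (ψ h)` for `A = range K`. -/
theorem unbounded (hf : StrictMono f) {w : W} (hw : ∀ i j n a, lab w i j n a = ∅) {I : Type}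
    (hI : Uncountable I) (ι : I → Ix) (hι : Function.Injective ι) (ψ : ℕ → ℕ → RO (PT f lab))
    (hψ : NS f ψ) : ⨅ i, ale (sig w (ι i)) ψ = ⊥ := by
  classical
  by_contra hne
  obtain ⟨p0, hp0⟩ := RO.ne_bot_iff.1 hne
  rw [RO.mem_iInf] at hp0
  have hn0 : p0 ∈ nul f ψ := by
    rw [hψ.nul]
    exact RO.mem_top
  unfold nul at hn0
  rw [RO.mem_iInf] at hn0
  have hn1 := hn0 2
  rw [RO.mem_iSup] at hn1
  obtain ⟨q0, hq0, m0, hm0⟩ := hn1 p0 le_rfl
  rw [RO.mem_iInf] at hm0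
  have hst : ∀ i : I, ∃ p, p ≤ q0 ∧ ι i ∈ (p.1 w).F ∧ max m0 2 ≤ (p.1 w).h ∧
      (p.1 w).k ≤ (p.1 w).h ∧ ∀ n, (p.1 w).h ≤ n → ∀ a r, r ≤ p →
        r ∈ (sig w (ι i) n a : RO (PT f lab)) → r ∈ ψ n a := fun i =>
    F9b_step (RO.mem_of_le hq0 (hp0 i)) _
  choose p hpq hpF hph hpk hps using hst
  obtain ⟨⟨h, k⟩, hS⟩ := F9b_fiber (fun i : I => (((p i).1 w).h, ((p i).1 w).k))
  obtain ⟨S', hS'S, hS', hcoh⟩ := exists_coh _ hS (fun i => (p i).1) (fun i => (p i).2.1)
  have hhS : ∀ i ∈ S', ((p i).1 w).h = h ∧ ((p i).1 w).k = k := by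
    intro i hi
    have h1 := hS'S hi
    simp only [Set.mem_preimage, Set.mem_singleton_iff, Prod.mk.injEq] at h1
    exact h1
  obtain ⟨g, hg⟩ : S'.Nonempty := by
    rw [Set.nonempty_iff_ne_empty]
    rintro rfl
    exact hS' Set.countable_empty
  have hBfin : {i : I | ι i ∈ ((p g).1 w).F}.Finite :=
    Set.Finite.preimage hι.injOn (((p g).1 w).F.finite_toSet)
  have hinf : (S' \ {i : I | ι i ∈ ((p g).1 w).F}).Infinite := by
    intro hfin
    refine hS' (Set.Countable.mono ?_ (hfin.countable.union hBfin.countable))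
    intro x hx
    by_cases hxB : x ∈ {i : I | ι i ∈ ((p g).1 w).F}
    · exact Or.inr hxB
    · exact Or.inl ⟨hx, hxB⟩
  have hsep : ∀ i ∈ (S' \ {i : I | ι i ∈ ((p g).1 w).F}), ∀ b ∈ S', b ≠ i →
      ι i ∉ ((p b).1 w).F := by
    intro i hi b hb hbi hmem
    refine hi.2 ?_
    exact hcoh.delta ⟨i, hi.1⟩ ⟨b, hb⟩ w (ι i) (fun hcon => hbi (congrArg Subtype.val hcon).symm)
      (hpF i) hmem ⟨g, hg⟩ ⟨_, hpF g⟩
  let e := hinf.natEmbedding
  have he : ∀ a b : ℕ, a ≠ b → (e a).1 ≠ (e b).1 := by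
    intro a b hab hcon
    exact hab (e.injective (Subtype.ext hcon))
  have heS : ∀ a, (e a).1 ∈ S' := fun a => (e a).2.1
  have h2h : 2 ≤ h := by
    have h1 := hph g
    rw [(hhS g hg).1] at h1
    exact (le_max_right _ _).trans h1
  have hm0h : m0 ≤ h := by
    have h1 := hph g
    rw [(hhS g hg).1] at h1
    exact (le_max_left _ _).trans h1
  have hkh : k ≤ h := by
    have h1 := hpk g
    rw [(hhS g hg).1, (hhS g hg).2] at h1
    exact h1
  have hfh : h ≤ f h := hf.le_apply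
  obtain ⟨K, hK⟩ : ∃ K, K = f h / 2 + 1 := ⟨_, rfl⟩
  have hKf : K ≤ f h := by omega
  have hfK : f h < 2 * K := by omega
  have hraise : ∀ j : Fin K, ∃ q : PT f lab, q ≤ p (e j) ∧
      (∀ v, v ≠ w → q.1 v = (p (e j)).1 v) ∧ (q.1 w).F = ((p (e j)).1 w).F ∧
      (q.1 w).h = h + 1 ∧ (q.1 w).k = k ∧ (q.1 w).c = ((p (e j)).1 w).c ∧
      (∀ x, (q.1 w).s x h = if x = ι (e j) then {j.1} else ∅) ∧
      ∀ x n, n < h → (q.1 w).s x n = ((p (e j)).1 w).s x n := by
    intro j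
    have hje := hhS _ (heS j)
    obtain ⟨q, h1, h2, h3, h4, h5, h6, h7, h8⟩ := raise hw (p (e j))
      (fun x => if x = ι (e j) then {j.1} else ∅) (by
        intro x
        rw [hje.1]
        split_ifs
        · intro y hy
          rw [Finset.mem_singleton] at hy
          rw [Finset.mem_range, hy]
          exact j.2.trans_le hKf
        · exact Finset.empty_subset _) (by
        intro x
        rw [hje.1, hje.2]
        split_ifs
        · rw [Finset.card_singleton, Nat.mul_one]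
          exact hkh.trans hfh
        · simp)
    rw [hje.1] at h4 h7 h8
    rw [hje.2] at h5
    exact ⟨q, h1, h2, h3, h4, h5, h6, h7, h8⟩
  choose q hqp hqv hqF hqh hqk hqc hqs hqs' using hraise
  have hFall : ∀ (j : Fin K) v, ((q j).1 v).F = ((p (e j)).1 v).F := by
    intro j v
    by_cases hv : v = w
    · rw [hv]
      exact hqF j
    · rw [hqv j v hv]
  have hqcoh : Coh fun j : Fin K => (q j).1 := by
    refine ⟨?_, ?_, ?_, ?_⟩
    · intro a b v ha hb
      try dsimp only at ha hb ⊢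
      by_cases hv : v = w
      · rw [hv, hqh a, hqh b, hqk a, hqk b]
        exact ⟨rfl, rfl⟩
      · rw [hFall] at ha hb
        rw [hqv a v hv, hqv b v hv]
        exact hcoh.hk ⟨_, heS a⟩ ⟨_, heS b⟩ v ha hb
    · intro a b v x ha hb n hn
      try dsimp only at ha hb hn ⊢
      rw [hFall] at ha hb
      by_cases hv : v = w
      · subst hv
        rw [hqh a] at hn
        rcases Nat.lt_succ_iff_lt_or_eq.1 hn with hn | hn
        · rw [hqs' a x n hn, hqs' b x n hn]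
          refine hcoh.s ⟨_, heS a⟩ ⟨_, heS b⟩ v x ha hb n ?_
          change n < ((p (e a).1).1 v).h
          rw [(hhS _ (heS a)).1]
          exact hn
        · subst hn
          by_cases hab : a = b
          · rw [hab]
          · have hne1 : (a : ℕ) ≠ b := fun hcon => hab (Fin.ext hcon)
            rw [hqs a, hqs b, if_neg, if_neg]
            · rintro rfl
              exact hsep _ (e b).2 _ (heS a) (he _ _ hne1) ha
            · rintro rfl
              exact hsep _ (e a).2 _ (heS b) (he _ _ hne1.symm) hb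
      · rw [hqv a v hv] at hn ⊢
        rw [hqv b v hv]
        exact hcoh.s ⟨_, heS a⟩ ⟨_, heS b⟩ v x ha hb n hn
    · intro a b v x y hxa hxb hya hyb
      try dsimp only at hxa hxb hya hyb ⊢
      rw [hFall] at hxa hxb hya hyb
      have h1 := hcoh.c ⟨_, heS a⟩ ⟨_, heS b⟩ v x y hxa hxb hya hyb
      by_cases hv : v = w
      · subst hv
        rw [hqc a, hqc b]
        exact h1
      · rw [hqv a v hv, hqv b v hv]
        exact h1
    · intro a b v x hab ha hb c hc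
      try dsimp only at ha hb hc ⊢
      rw [hFall] at ha hb hc ⊢
      have hne1 : (a : ℕ) ≠ b := fun hcon => hab (Fin.ext hcon)
      exact hcoh.delta ⟨_, heS a⟩ ⟨_, heS b⟩ v x
        (fun hcon => he _ _ hne1 (congrArg (fun z : S' => z.1) hcon)) ha hb ⟨_, heS c⟩ hc
  obtain ⟨r, hr⟩ := amalg q hqcoh
  have hrψ : ∀ a, a < K → r ∈ ψ h a := by
    intro a ha
    have h1 : q ⟨a, ha⟩ ∈ (sig w (ι (e a)) h a : RO (PT f lab)) := by
      rw [mem_sig]
      · rw [hqs ⟨a, ha⟩, if_pos rfl]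
        exact Finset.mem_singleton_self a
      · rw [hqF]
        exact hpF _
      · rw [hqh]
        exact Nat.lt_succ_self h
    refine hps (e a).1 h ?_ a r (le_trans (hr ⟨a, ha⟩) (hqp ⟨a, ha⟩))
      (RO.mem_of_le (hr ⟨a, ha⟩) h1)
    rw [(hhS _ (heS a)).1]
  have hrq0 : r ≤ q0 := by
    have h0 : 0 < K := by omega
    exact le_trans (hr ⟨0, h0⟩) (le_trans (hqp ⟨0, h0⟩) (hpq _))
  have h1 := hm0 h
  rw [RO.mem_iInf] at h1
  have h2 := RO.mem_of_le hrq0 (h1 hm0h)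
  unfold cap at h2
  rw [RO.mem_iInf] at h2
  have h3 := h2 (Finset.range K)
  rw [RO.mem_iInf] at h3
  have h4 := h3 ⟨Finset.range_subset_range.2 hKf, by rw [Finset.card_range]; exact hfK⟩
  rw [RO.mem_compl] at h4
  refine h4 r le_rfl ?_
  rw [RO.mem_iInf]
  intro a
  rw [RO.mem_iInf]
  intro ha
  exact hrψ a (Finset.mem_range.1 ha)

end Pool.Agent.LibMA42
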