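import Pool.Agent.LibTk83.Sent

/-!
MP_3a91e3_lc: the truth value, in the Boolean-valued universe `V^B`, of the sentence which says
(for the ideal `I_f`) that `add(I_f) = ℵ_α < ℵ_(α+ω) ≤ cofin⁻(I_f)` for some `α`.

All quantifiers range over the whole universe `V^B`; the only primitive predicates are membership
and equality. `w` is `ω` and `f` is a function with domain `ω`.
-/

universe u

namespace Pool.Agent.LibMA42

open Pool.Agent.LibPlas90 Pool.Agent.LibPlas90.BSet Pool.Agent.LibTk83

variable {B : Type u} [CompleteBooleanAlgebra B]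

/-- `x` is in the space `X_f`, the product of the sets `f(n)`: it is a set of pairs of some `n ∈ w`
and some `a ∈ f(n)`, with exactly one `a` for each `n ∈ w`. -/
noncomputable def inX (w f x : BSet B) : B :=
  (all x fun p => ex w fun n => ⨆ y : BSet B, rel f n y ⊓ ex y fun a => isPair p n a) ⊓
  (all w fun n => ⨆ a : BSet B, rel x n a ⊓ ⨅ a' : BSet B, rel x n a' ⇨ eq a' a)

/-- `k |φ(n)| ≤ |f(n)|`, where `φ(n)` is the set of the `a ∈ f(n)` such that the pair of `n` and `a`
is in `φ`: there is a relation `g` between the pairs of elements `j` of `k` and `a` of `φ(n)` and the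
elements of `f(n)`, such that each pair is related to some element of `f(n)` and no element of
`f(n)` is related to two pairs. -/
noncomputable def small (f φ k n : BSet B) : B :=
  ⨆ y : BSet B, rel f n y ⊓ ⨆ g : BSet B,
    (all k fun j => all y fun a => rel φ n a ⇨ ex y fun b => rel3 g j a b) ⊓
    (all k fun j => all k fun j' => all y fun a => all y fun a' => all y fun b =>
      rel3 g j a b ⊓ rel3 g j' a' b ⇨ eq j j' ⊓ eq a a')

/-- `φ` is (the code of) a null slalom below `f`: for each `k ∈ w` we have `k |φ(n)| ≤ f(n)` for all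
`n ∈ w` which are large enough. -/
noncomputable def isNull (w f φ : BSet B) : B :=
  all w fun k => ex w fun m => all w fun n => mem m n ⇨ small f φ k n

/-- `x(n) ∈ φ(n)` for infinitely many `n ∈ w`. -/
noncomputable def hits (w φ x : BSet B) : B :=
  all w fun m => ex w fun n => mem m n ⊓ ⨆ a : BSet B, rel x n a ⊓ rel φ n a

/-- `A` is in the ideal `I_f`: it is a subset of `X_f` and of `[φ]` for some null slalom `φ`. -/
noncomputable def inIf (w f A : BSet B) : B :=
  ⨆ φ : BSet B, isNull w f φ ⊓ all A fun x => inX w f x ⊓ hits w φ x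

/-- `J` is closed under finite unions and under subsets: if `A` and `A'` are in `J` then each
subset of `A ∪ A'` is in `J`. -/
noncomputable def isIdeal (J : BSet B) : B :=
  all J fun A => all J fun A' => ⨅ E : BSet B, (all E fun x => mem x A ⊔ mem x A') ⇨ mem E J

/-- `J` is an ideal which is properly contained in `I_f`. -/
noncomputable def isProper (w f J : BSet B) : B :=
  isIdeal J ⊓ (all J fun A => inIf w f A) ⊓ ⨆ A : BSet B, inIf w f A ⊓ (mem A J)ᶜ

/-- `add(I_f) ≤ |S|`: there is a family `g` of members of `I_f`, indexed by `S`, such that no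
member of `I_f` contains all of them (that is, the union of the family is not in `I_f`). -/
noncomputable def addLe (w f S : BSet B) : B :=
  ⨆ g : BSet B, isSeq g S ⊓ (all S fun i => ⨅ A : BSet B, rel g i A ⇨ inIf w f A) ⊓
    ⨅ E : BSet B, inIf w f E ⇨ ex S fun i => ⨆ A : BSet B, rel g i A ⊓ ex A fun x => (mem x E)ᶜ

/-- `I_f` is not the union of a family `g`, indexed by `S`, of ideals which are properly contained
in `I_f`. -/
noncomputable def noCover (w f S : BSet B) : B :=
  ⨅ g : BSet B, isSeq g S ⊓ (all S fun i => ⨅ J : BSet B, rel g i J ⇨ isProper w f J) ⇨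
    ⨆ A : BSet B, inIf w f A ⊓ all S fun i => ⨅ J : BSet B, rel g i J ⇨ (mem A J)ᶜ

/-- The truth value in `V^B` of: there is a sequence of sets `F(0), F(1), ...` of strictly
increasing cardinalities such that `add(I_f) ≤ |F(0)|` and, for each `k`, `I_f` is not the union of
at most `|F(k)|` ideals which are properly contained in `I_f`.

So (in ZFC) `ℵ_α = add(I_f) ≤ |F(0)|` and `ℵ_(α+k) ≤ |F(k)|`, and a strictly increasing sequence of
ideals with union `I_f` (of limit length) has length greater than `|F(k)|` for each `k`, so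
`ℵ_(α+ω) ≤ cofin⁻(I_f)`. -/
noncomputable def gapSentence (f : BSet B) : B :=
  ⨆ w : BSet B, isOmega w ⊓ ⨆ F : BSet B, isSeq F w ⊓
    (all w fun n => all w fun m => ⨅ S : BSet B, ⨅ T : BSet B,
      mem n m ⊓ rel F n S ⊓ rel F m T ⇨ (embeds T S)ᶜ) ⊓
    (all w fun n => isEmpty n ⇨ ⨅ S : BSet B, rel F n S ⇨ addLe w f S) ⊓
    (all w fun n => ⨅ S : BSet B, rel F n S ⇨ noCover w f S)

end Pool.Agent.LibMA42
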